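import Mathlib
import Pool.Agent.H906R3.YM.Dense

/-!
# A Poincare inequality from a curvature bound, abstract form

`S` is an algebra of functions with derivations and an integral, `ψ` a positive element with inverse
`φ`; the weighted operator is `L u = Δ u + 2 ∇ log ψ · ∇ u`.
-/

open Pool.Agent.H906R3.YM

namespace Pool.Agent.W58

set_option linter.unusedSectionVars false

noncomputable section

variable {A : Type*} [CommRing A] [Algebra ℝ A] {P J : Type*} [Fintype J] (S : Fn A P J)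

/-- the weighted Laplacian -/
def LL (ψ φ : A) : A →ₗ[ℝ] A where
  toFun g := Lap S.D g + 2 * ∑ j, (φ * S.D j ψ) * S.D j g
  map_add' u v := by
    unfold Lap
    simp only [map_add, mul_add, Finset.sum_add_distrib]
    abel
  map_smul' c u := by
    unfold Lap
    simp only [Derivation.map_smul, mul_smul_comm, ← Finset.smul_sum, RingHom.id_apply, smul_add]

variable {S} {ψ φ : A} (h : ψ * φ = 1)

lemma LL_apply (g : A) : LL S ψ φ g = Lap S.D g + 2 * ∑ j, (φ * S.D j ψ) * S.D j g := rfl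

lemma LL_eq_sum (g : A) :
    LL S ψ φ g = ∑ j, (S.D j (S.D j g) + 2 * ((φ * S.D j ψ) * S.D j g)) := by
  rw [LL_apply]
  unfold Lap
  rw [Finset.mul_sum, ← Finset.sum_add_distrib]

include h

lemma LL_step (j : J) (u v : A) :
    S.I (ψ * ψ * (u * (S.D j (S.D j v) + 2 * ((φ * S.D j ψ) * S.D j v)))) =
      -S.I (ψ * ψ * (S.D j u * S.D j v)) := by
  have h1 := S.I_D j (ψ * ψ * (u * S.D j v))
  have h2 : S.D j (ψ * ψ * (u * S.D j v)) =
      ψ * ψ * (u * (S.D j (S.D j v) + 2 * ((φ * S.D j ψ) * S.D j v))) +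
        ψ * ψ * (S.D j u * S.D j v) := by
    simp only [Derivation.leibniz, smul_eq_mul]
    linear_combination (-2 * ψ * S.D j ψ * u * S.D j v) * h
  rw [h2, map_add] at h1
  linarith

/-- symmetry -/
lemma LL_symm (u v : A) :
    S.I (ψ * ψ * (u * LL S ψ φ v)) = -S.I (ψ * ψ * Gam S.D u v) := by
  rw [LL_eq_sum, Finset.mul_sum, Finset.mul_sum, map_sum,
    Finset.sum_congr rfl fun j _ => LL_step h j u v, Finset.sum_neg_distrib]
  unfold Gam
  rw [Finset.mul_sum, map_sum]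

/-- `ψ L g = Δ (ψ g) - (φ Δ ψ) ψ g`. -/
lemma LL_conj (g : A) :
    ψ * LL S ψ φ g = Lap S.D (ψ * g) - (φ * Lap S.D ψ) * (ψ * g) := by
  rw [LL_apply, Lap_mul]
  have e1 : ψ * (2 * ∑ j, φ * S.D j ψ * S.D j g) = 2 * Gam S.D ψ g := by
    unfold Gam
    rw [mul_left_comm, Finset.mul_sum]
    congr 1
    refine Finset.sum_congr rfl fun j _ => ?_
    linear_combination (S.D j ψ * S.D j g) * h
  rw [mul_add, e1, two_smul]
  linear_combination (Lap S.D ψ * g) * h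

omit h in
/-- nonnegativity of `∑ (D_i D_j g)² - K |∇ g|²` after weighting. -/
lemma hess_ric {K : ℝ} (σ : J → J → J → ℝ)
    (hσ : ∀ i l u, S.D i (S.D l u) - S.D l (S.D i u) = ∑ k, σ i l k • S.D k u)
    (hK : ∀ v : J → ℝ, K * ∑ k, v k ^ 2 ≤ 1 / 4 * ∑ i, ∑ l, (∑ k, σ i l k * v k) ^ 2)
    (g : A) (x : P) :
    K * S.ev x (Gam S.D g g) ≤ S.ev x (∑ j, ∑ i, S.D i (S.D j g) * S.D i (S.D j g)) := by
  have h1 := hK fun k => S.ev x (S.D k g)
  have h2 : ∀ i l, (∑ k, σ i l k * S.ev x (S.D k g)) =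
      S.ev x (S.D i (S.D l g)) - S.ev x (S.D l (S.D i g)) := by
    intro i l
    rw [← map_sub, hσ, map_sum]
    exact Finset.sum_congr rfl fun k _ => by rw [map_smul, smul_eq_mul]
  simp only [h2] at h1
  have h3 : S.ev x (Gam S.D g g) = ∑ k, S.ev x (S.D k g) ^ 2 := by
    unfold Gam
    rw [map_sum]
    exact Finset.sum_congr rfl fun k _ => by rw [map_mul, sq]
  rw [h3]
  refine h1.trans ?_
  have h4 : ∀ i l, (S.ev x (S.D i (S.D l g)) - S.ev x (S.D l (S.D i g))) ^ 2 ≤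
      2 * S.ev x (S.D i (S.D l g)) ^ 2 + 2 * S.ev x (S.D l (S.D i g)) ^ 2 := fun i l => by
    nlinarith [sq_nonneg (S.ev x (S.D i (S.D l g)) + S.ev x (S.D l (S.D i g)))]
  have h5 := Finset.sum_le_sum fun i (_ : i ∈ Finset.univ) =>
    Finset.sum_le_sum fun l (_ : l ∈ Finset.univ) => h4 i l
  have h6 : S.ev x (∑ j, ∑ i, S.D i (S.D j g) * S.D i (S.D j g)) =
      ∑ j, ∑ i, S.ev x (S.D i (S.D j g)) ^ 2 := by
    rw [map_sum]
    refine Finset.sum_congr rfl fun j _ => ?_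
    rw [map_sum]
    exact Finset.sum_congr rfl fun i _ => by rw [map_mul, sq]
  rw [h6]
  simp only [Finset.sum_add_distrib, ← Finset.mul_sum] at h5
  rw [Finset.sum_comm (f := fun i l => S.ev x (S.D i (S.D l g)) ^ 2)] at h5
  linarith

omit h in
lemma I_wmono {u v : A} (huv : ∀ x, S.ev x u ≤ S.ev x v) :
    S.I (ψ * ψ * u) ≤ S.I (ψ * ψ * v) := by
  refine S.I_mono _ _ fun x => ?_
  rw [map_mul (S.ev x) (ψ * ψ) u, map_mul (S.ev x) (ψ * ψ) v, map_mul]
  exact mul_le_mul_of_nonneg_left (huv x) (mul_self_nonneg _)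

/-- the integrated Bochner inequality -/
theorem bochner {K m : ℝ} (σ : J → J → J → ℝ)
    (hσ : ∀ i l u, S.D i (S.D l u) - S.D l (S.D i u) = ∑ k, σ i l k • S.D k u)
    (hanti : ∀ i j k, σ i j k = -σ k j i)
    (hcas : ∀ j u, Lap S.D (S.D j u) = S.D j (Lap S.D u))
    (hK : ∀ v : J → ℝ, K * ∑ k, v k ^ 2 ≤ 1 / 4 * ∑ i, ∑ l, (∑ k, σ i l k * v k) ^ 2)
    (hm : ∀ x, ∀ v : J → ℝ, ∑ i, ∑ j, v i * v j * S.ev x (S.D j (φ * S.D i ψ)) ≤
      m * ∑ i, v i ^ 2) (g : A) :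
    (K - 2 * m) * S.I (ψ * ψ * Gam S.D g g) ≤
      S.I (ψ * ψ * (LL S ψ φ g * LL S ψ φ g)) := by
  have h1 : S.I (ψ * ψ * (LL S ψ φ g * LL S ψ φ g)) =
      -S.I (ψ * ψ * Gam S.D (LL S ψ φ g) g) := LL_symm h (LL S ψ φ g) g
  -- the derivative of `L g`
  have h2 : ∀ j, S.D j (LL S ψ φ g) = LL S ψ φ (S.D j g) +
      2 * ∑ i, S.D j (φ * S.D i ψ) * S.D i g +
      2 * ∑ i, (φ * S.D i ψ) * ∑ k, σ j i k • S.D k g := by
    intro j
    rw [LL_apply, LL_apply, map_add, hcas, Derivation.leibniz, smul_eq_mul, smul_eq_mul]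
    have e0 : S.D j (2 : A) = 0 := by
      have : (2 : A) = algebraMap ℝ A 2 := (map_ofNat (algebraMap ℝ A) 2).symm
      rw [this, Derivation.map_algebraMap]
    rw [e0, mul_zero, add_zero, map_sum, add_assoc, add_assoc]
    congr 1
    rw [← mul_add, ← mul_add, ← Finset.sum_add_distrib, ← Finset.sum_add_distrib]
    congr 1
    refine Finset.sum_congr rfl fun i _ => ?_
    rw [Derivation.leibniz, smul_eq_mul, smul_eq_mul, ← hσ]
    ring
  have h3 : Gam S.D (LL S ψ φ g) g = (∑ j, S.D j g * LL S ψ φ (S.D j g)) +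
      2 * ∑ i, ∑ j, S.D i g * S.D j g * S.D j (φ * S.D i ψ) := by
    unfold Gam
    have e1 : ∑ j, ∑ i, (S.D j g * ((φ * S.D i ψ) * ∑ k, σ j i k • S.D k g)) = 0 := by
      have e2 : ∀ i, ∑ j, S.D j g * ((φ * S.D i ψ) * ∑ k, σ j i k • S.D k g) = 0 := by
        intro i
        have e3 : ∀ j, S.D j g * ((φ * S.D i ψ) * ∑ k, σ j i k • S.D k g) =
            ∑ k, σ j i k • ((φ * S.D i ψ) * (S.D j g * S.D k g)) := by
          intro j
          rw [Finset.mul_sum, Finset.mul_sum]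
          refine Finset.sum_congr rfl fun k _ => ?_
          rw [mul_smul_comm, mul_smul_comm]
          congr 1
          ring
        rw [Finset.sum_congr rfl fun j _ => e3 j]
        set T : A := ∑ j, ∑ k, σ j i k • ((φ * S.D i ψ) * (S.D j g * S.D k g)) with hT
        have e4 : T = -T := by
          conv_lhs => rw [hT, Finset.sum_comm]
          rw [hT, ← Finset.sum_neg_distrib]
          refine Finset.sum_congr rfl fun k _ => ?_
          rw [← Finset.sum_neg_distrib]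
          refine Finset.sum_congr rfl fun j _ => ?_
          rw [hanti j i k, neg_smul, mul_comm (S.D j g)]
        have e5 : (2 : ℝ) • T = 0 := by
          rw [two_smul]
          nth_rewrite 2 [e4]
          exact add_neg_cancel T
        have e6 := congrArg (fun x => (1 / 2 : ℝ) • x) e5
        simpa [smul_smul] using e6
      rw [Finset.sum_comm, Finset.sum_congr rfl fun i _ => e2 i, Finset.sum_const_zero]
    have e7 : ∑ j, S.D j (LL S ψ φ g) * S.D j g =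
        (∑ j, S.D j g * LL S ψ φ (S.D j g)) +
          2 * (∑ j, ∑ i, S.D i g * S.D j g * S.D j (φ * S.D i ψ)) +
          2 * (∑ j, ∑ i, (S.D j g * ((φ * S.D i ψ) * ∑ k, σ j i k • S.D k g))) := by
      rw [Finset.mul_sum, Finset.mul_sum, ← Finset.sum_add_distrib, ← Finset.sum_add_distrib]
      refine Finset.sum_congr rfl fun j _ => ?_
      have e8 : ∑ i, S.D i g * S.D j g * S.D j (φ * S.D i ψ) =
          S.D j g * ∑ i, S.D j (φ * S.D i ψ) * S.D i g := by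
        rw [Finset.mul_sum]
        exact Finset.sum_congr rfl fun i _ => by ring
      rw [h2, e8, ← Finset.mul_sum]
      ring
    rw [e7, e1, mul_zero, add_zero, Finset.sum_comm]
  have h4 : S.I (ψ * ψ * ∑ j, S.D j g * LL S ψ φ (S.D j g)) =
      -S.I (ψ * ψ * ∑ j, ∑ i, S.D i (S.D j g) * S.D i (S.D j g)) := by
    rw [Finset.mul_sum, map_sum, Finset.sum_congr rfl fun j _ => LL_symm h (S.D j g) (S.D j g),
      Finset.sum_neg_distrib, Finset.mul_sum, map_sum]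
    rfl
  rw [h1, h3, mul_add, map_add, h4]
  have h5 : S.I (ψ * ψ * (K • Gam S.D g g)) ≤
      S.I (ψ * ψ * ∑ j, ∑ i, S.D i (S.D j g) * S.D i (S.D j g)) := by
    refine I_wmono fun x => ?_
    rw [map_smul, smul_eq_mul]
    exact hess_ric σ hσ hK g x
  have h6 : S.I (ψ * ψ * (2 * ∑ i, ∑ j, S.D i g * S.D j g * S.D j (φ * S.D i ψ))) ≤
      S.I (ψ * ψ * ((2 * m) • Gam S.D g g)) := by
    refine I_wmono fun x => ?_
    rw [map_smul, smul_eq_mul]
    have h7 := hm x fun i => S.ev x (S.D i g)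
    have h8 : S.ev x (Gam S.D g g) = ∑ k, S.ev x (S.D k g) ^ 2 := by
      unfold Gam
      rw [map_sum]
      exact Finset.sum_congr rfl fun k _ => by rw [map_mul, sq]
    have h9 : S.ev x (2 * ∑ i, ∑ j, S.D i g * S.D j g * S.D j (φ * S.D i ψ)) =
        2 * ∑ i, ∑ j, S.ev x (S.D i g) * S.ev x (S.D j g) * S.ev x (S.D j (φ * S.D i ψ)) := by
      rw [map_mul, map_ofNat, map_sum]
      congr 1
      refine Finset.sum_congr rfl fun i _ => ?_
      rw [map_sum]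
      exact Finset.sum_congr rfl fun j _ => by rw [map_mul, map_mul]
    rw [h8, h9]
    linarith
  rw [mul_smul_comm, map_smul, smul_eq_mul] at h5 h6
  linarith

omit h in
lemma wsq (u : A) : S.nr (ψ * u) ^ 2 = S.I (ψ * ψ * (u * u)) := by
  rw [nr_sq]; congr 1; ring

omit h in
lemma wcs (u v : A) : |S.I (ψ * ψ * (u * v))| ≤ S.nr (ψ * u) * S.nr (ψ * v) := by
  have := nr_cs (S := S) (ψ * u) (ψ * v)
  have e : ψ * u * (ψ * v) = ψ * ψ * (u * v) := by ring
  rwa [e] at this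

omit h in
lemma wGam_nonneg (g : A) : 0 ≤ S.I (ψ * ψ * Gam S.D g g) := by
  have := I_wmono (S := S) (ψ := ψ) (u := 0) (v := Gam S.D g g) fun x => by
    rw [map_zero]
    unfold Gam
    rw [map_sum]
    exact Finset.sum_nonneg fun j _ => by rw [map_mul]; exact mul_self_nonneg _
  rwa [mul_zero, map_zero] at this

omit h in
lemma wGam_cs (f g : A) : S.I (ψ * ψ * Gam S.D f g) ^ 2 ≤
    S.I (ψ * ψ * Gam S.D f f) * S.I (ψ * ψ * Gam S.D g g) := by
  have h1 := S.I_cs (fun j => ψ * S.D j f) (fun j => ψ * S.D j g)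
  have e : ∀ u v : A, ∑ j, S.I (ψ * S.D j u * (ψ * S.D j v)) = S.I (ψ * ψ * Gam S.D u v) := by
    intro u v
    unfold Gam
    rw [Finset.mul_sum, map_sum]
    exact Finset.sum_congr rfl fun j _ => by congr 1; ring
  rwa [e, e, e] at h1

/-- `‖(ε - L) g‖² = ε² ‖g‖² + 2 ε ‖∇ g‖² + ‖L g‖²`. -/
lemma res_sq (ε : ℝ) (g : A) :
    S.nr (ψ * (ε • g - LL S ψ φ g)) ^ 2 = ε ^ 2 * S.nr (ψ * g) ^ 2 +
      2 * ε * S.I (ψ * ψ * Gam S.D g g) + S.nr (ψ * LL S ψ φ g) ^ 2 := by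
  rw [wsq, wsq, wsq]
  have h1 : (ε • g - LL S ψ φ g) * (ε • g - LL S ψ φ g) =
      (ε ^ 2) • (g * g) - (2 * ε) • (g * LL S ψ φ g) + LL S ψ φ g * LL S ψ φ g := by
    simp only [Algebra.smul_def, map_mul, map_pow, map_ofNat]; ring
  rw [h1, mul_add, mul_sub, mul_smul_comm, mul_smul_comm, map_add, map_sub, map_smul, map_smul,
    LL_symm h, smul_eq_mul, smul_eq_mul]
  ring

lemma res_coer {ε : ℝ} (hε : 0 ≤ ε) (g : A) :
    ε * S.nr (ψ * g) ≤ S.nr (ψ * (ε • g - LL S ψ φ g)) := by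
  have h1 := res_sq (S := S) h ε g
  have h2 := wGam_nonneg (S := S) (ψ := ψ) g
  refine (pow_le_pow_iff_left₀ (mul_nonneg hε (nr_nonneg _)) (nr_nonneg _) two_ne_zero).1 ?_
  rw [h1, mul_pow]
  nlinarith [sq_nonneg (S.nr (ψ * LL S ψ φ g)), mul_nonneg hε h2]

lemma res_LL {ε : ℝ} (hε : 0 ≤ ε) (g : A) :
    S.nr (ψ * LL S ψ φ g) ^ 2 ≤ S.nr (ψ * (ε • g - LL S ψ φ g)) ^ 2 := by
  have h1 := res_sq (S := S) h ε g
  have h2 := wGam_nonneg (S := S) (ψ := ψ) g
  rw [h1]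
  nlinarith [sq_nonneg (ε * S.nr (ψ * g)), mul_nonneg hε h2]

/-- density of the range of `ε - L` for small `ε` from the one for some large number -/
theorem dense_small (Pr : A → Prop) (hadd : ∀ u v, Pr u → Pr v → Pr (u + v))
    (hsmul : ∀ (c : ℝ) u, Pr u → Pr (c • u)) (hφP : ∀ u, Pr u → Pr (φ * u))
    (hψP : ∀ u, Pr u → Pr (ψ * u)) (hLP : ∀ u, Pr u → Pr (LL S ψ φ u))
    {Λ : ℝ} (hΛ : 0 < Λ)
    (hd : ∀ f, Pr f → ∀ δ : ℝ, 0 < δ → ∃ w, Pr w ∧
      S.nr (-Lap S.D w + (φ * Lap S.D ψ) * w + Λ • w - f) ≤ δ)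
    {ε : ℝ} (hε : 0 < ε) (hεΛ : ε ≤ Λ) {f : A} (hf : Pr f) {δ : ℝ} (hδ : 0 < δ) :
    ∃ g, Pr g ∧ S.nr (ψ * (ε • g - LL S ψ φ g - f)) ≤ δ := by
  have hsub : ∀ u v, Pr u → Pr v → Pr (u - v) := fun u v hu hv => by
    have h1 := hadd u ((-1 : ℝ) • v) hu (hsmul _ v hv)
    rwa [neg_one_smul, ← sub_eq_add_neg] at h1
  -- the case of `Λ`
  have hbig : ∀ f, Pr f → ∀ δ : ℝ, 0 < δ → ∃ g, Pr g ∧
      S.nr (ψ * (Λ • g - LL S ψ φ g - f)) ≤ δ := by
    intro f hf δ hδ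
    obtain ⟨w, hw, hwd⟩ := hd (ψ * f) (hψP f hf) δ hδ
    refine ⟨φ * w, hφP w hw, ?_⟩
    have e1 : ψ * (φ * w) = w := by rw [← mul_assoc, h, one_mul]
    have e2 : ψ * (Λ • (φ * w) - LL S ψ φ (φ * w) - f) =
        -Lap S.D w + (φ * Lap S.D ψ) * w + Λ • w - ψ * f := by
      rw [mul_sub, mul_sub, mul_smul_comm, LL_conj h, e1]
      abel
    rwa [e2]
  by_contra hc
  push Not at hc
  set Q : Set ℝ := {x | ∃ g, Pr g ∧ x = S.nr (ψ * (ε • g - LL S ψ φ g - f))} with hQ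
  have hPr0 : Pr 0 := by
    have := hsmul 0 f hf
    rwa [zero_smul] at this
  have hQne : Q.Nonempty := ⟨_, 0, hPr0, rfl⟩
  have hQlow : ∀ x ∈ Q, δ ≤ x := by
    rintro x ⟨g, hg, rfl⟩
    exact (hc g hg).le
  have hQb : BddBelow Q := ⟨δ, fun x hx => hQlow x hx⟩
  set q := sInf Q with hq
  have hqδ : δ ≤ q := le_csInf hQne hQlow
  have hq0 : 0 < q := lt_of_lt_of_le hδ hqδ
  set η := ε * q / (4 * Λ) with hη
  have hη0 : 0 < η := by positivity
  obtain ⟨x0, ⟨g, hg, rfl⟩, hx0⟩ := exists_lt_of_csInf_lt hQne (show q < q + η by linarith)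
  set r := f - (ε • g - LL S ψ φ g) with hr
  have hrP : Pr r := hsub _ _ hf (hsub _ _ (hsmul ε g hg) (hLP g hg))
  obtain ⟨w, hw, hwd⟩ := hbig r hrP η hη0
  have h1 : q ≤ S.nr (ψ * (ε • (g + w) - LL S ψ φ (g + w) - f)) :=
    csInf_le hQb ⟨g + w, hadd _ _ hg hw, rfl⟩
  have e1 : ψ * (ε • (g + w) - LL S ψ φ (g + w) - f) =
      ψ * (Λ • w - LL S ψ φ w - r) + (-(Λ - ε)) • (ψ * w) := by
    rw [map_add, hr, smul_add, ← mul_smul_comm, ← mul_add]
    congr 1
    rw [neg_smul, sub_smul]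
    abel
  rw [e1] at h1
  have h2 := h1.trans (nr_add _ _)
  rw [nr_smul, abs_neg, abs_of_nonneg (by linarith : 0 ≤ Λ - ε)] at h2
  have h3 : Λ * S.nr (ψ * w) ≤ S.nr (ψ * (Λ • w - LL S ψ φ w)) := res_coer h hΛ.le w
  have h4 : S.nr (ψ * (Λ • w - LL S ψ φ w)) ≤ η + S.nr (ψ * r) := by
    have e2 : ψ * (Λ • w - LL S ψ φ w) = ψ * (Λ • w - LL S ψ φ w - r) + ψ * r := by ring
    rw [e2]
    exact (nr_add _ _).trans (by linarith)
  have h5 : S.nr (ψ * r) < q + η := by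
    have e3 : ψ * r = -(ψ * (ε • g - LL S ψ φ g - f)) := by rw [hr]; ring
    rw [e3, nr_neg]
    exact hx0
  have h6 : Λ * S.nr (ψ * w) ≤ q + 2 * η := by linarith
  have h7 : Λ * q ≤ Λ * η + (Λ - ε) * (q + 2 * η) := by
    have := mul_le_mul_of_nonneg_left h2 hΛ.le
    have h8 := mul_le_mul_of_nonneg_left h6 (by linarith : 0 ≤ Λ - ε)
    have h9 := mul_le_mul_of_nonneg_left hwd hΛ.le
    nlinarith
  have h8 : Λ * η = ε * q / 4 := by rw [hη]; field_simp
  have h9 : (Λ - ε) * (2 * η) ≤ ε * q / 2 := by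
    have : ε * η ≥ 0 := by positivity
    nlinarith
  have h10 : 0 < ε * q := by positivity
  nlinarith

/-- The Poincare inequality with the constant `K - 2 m`. -/
theorem poincare {K m : ℝ} (hKm : 0 < K - 2 * m) (σ : J → J → J → ℝ)
    (hσ : ∀ i l u, S.D i (S.D l u) - S.D l (S.D i u) = ∑ k, σ i l k • S.D k u)
    (hanti : ∀ i j k, σ i j k = -σ k j i)
    (hcas : ∀ j u, Lap S.D (S.D j u) = S.D j (Lap S.D u))
    (hK : ∀ v : J → ℝ, K * ∑ k, v k ^ 2 ≤ 1 / 4 * ∑ i, ∑ l, (∑ k, σ i l k * v k) ^ 2)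
    (hm : ∀ x, ∀ v : J → ℝ, ∑ i, ∑ j, v i * v j * S.ev x (S.D j (φ * S.D i ψ)) ≤
      m * ∑ i, v i ^ 2)
    (Pr : A → Prop) (hadd : ∀ u v, Pr u → Pr v → Pr (u + v))
    (hsmul : ∀ (c : ℝ) u, Pr u → Pr (c • u)) (hφP : ∀ u, Pr u → Pr (φ * u))
    (hψP : ∀ u, Pr u → Pr (ψ * u)) (hLP : ∀ u, Pr u → Pr (LL S ψ φ u))
    {Λ : ℝ} (hΛ : 0 < Λ)
    (hd : ∀ f, Pr f → ∀ δ : ℝ, 0 < δ → ∃ w, Pr w ∧
      S.nr (-Lap S.D w + (φ * Lap S.D ψ) * w + Λ • w - f) ≤ δ)
    {C : ℝ} (hC : 0 ≤ C) (hcr : ∀ g, Pr g → S.I (ψ * ψ * (g * g)) ≤ C * S.I (ψ * ψ * Gam S.D g g))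
    {f : A} (hf : Pr f) :
    (K - 2 * m) * S.I (ψ * ψ * (f * f)) ≤ S.I (ψ * ψ * Gam S.D f f) := by
  set κ := K - 2 * m with hκ
  set F := S.nr (ψ * f) with hF
  set Γf := S.I (ψ * ψ * Gam S.D f f) with hΓf
  have hΓ0 : 0 ≤ Γf := wGam_nonneg f
  have hF0 : 0 ≤ F := nr_nonneg _
  rw [← wsq, ← hF]
  -- main estimate for given `ε`, `δ`
  have key : ∀ ε : ℝ, 0 < ε → ε ≤ Λ → ∀ δ : ℝ, 0 < δ →
      F ^ 2 ≤ ε * F * Real.sqrt (C / κ) * (F + δ) + Real.sqrt (Γf / κ) * (F + δ) + F * δ := by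
    intro ε hε hεΛ δ hδ
    obtain ⟨g, hg, hgd⟩ := dense_small h Pr hadd hsmul hφP hψP hLP hΛ hd hε hεΛ hf hδ
    set r := ε • g - LL S ψ φ g with hr
    set R := S.nr (ψ * r) with hR
    have hR0 : 0 ≤ R := nr_nonneg _
    have hRF : R ≤ F + δ := by
      have e : ψ * r = ψ * (r - f) + ψ * f := by ring
      rw [hR, e]
      exact (nr_add _ _).trans (by linarith)
    set Γg := S.I (ψ * ψ * Gam S.D g g) with hΓg
    have hΓg0 : 0 ≤ Γg := wGam_nonneg g
    have hb : κ * Γg ≤ R ^ 2 := by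
      have h1 := bochner h σ hσ hanti hcas hK hm g
      rw [← wsq] at h1
      exact h1.trans (res_LL h hε.le g)
    have hb' : Γg ≤ R ^ 2 / κ := by
      rw [le_div_iff₀ hKm]; linarith
    -- the scalar product of `f` and `r`
    have h2 : S.I (ψ * ψ * (f * r)) = ε * S.I (ψ * ψ * (f * g)) + S.I (ψ * ψ * Gam S.D f g) := by
      have e : f * r = ε • (f * g) - f * LL S ψ φ g := by
        rw [hr, mul_sub, mul_smul_comm]
      rw [e, mul_sub, mul_smul_comm, map_sub, map_smul, LL_symm h, smul_eq_mul]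
      ring
    have h3 : F ^ 2 ≤ S.I (ψ * ψ * (f * r)) + F * δ := by
      have e : S.I (ψ * ψ * (f * f)) = S.I (ψ * ψ * (f * r)) - S.I (ψ * ψ * (f * (r - f))) := by
        rw [← map_sub]; congr 1; ring
      rw [hF, wsq, e]
      have h4 := wcs (S := S) (ψ := ψ) f (r - f)
      have h5 := (abs_le.1 h4).1
      have h6 : S.nr (ψ * f) * S.nr (ψ * (r - f)) ≤ F * δ :=
        mul_le_mul_of_nonneg_left hgd hF0
      linarith
    have h4 : S.I (ψ * ψ * (f * g)) ≤ F * (Real.sqrt (C / κ) * (F + δ)) := by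
      have h5 := (le_abs_self _).trans (wcs (S := S) (ψ := ψ) f g)
      refine h5.trans (mul_le_mul_of_nonneg_left ?_ hF0)
      have h6 : S.nr (ψ * g) ^ 2 ≤ (Real.sqrt (C / κ) * R) ^ 2 := by
        rw [mul_pow, Real.sq_sqrt (by positivity), wsq]
        refine (hcr g hg).trans ?_
        calc C * S.I (ψ * ψ * Gam S.D g g) ≤ C * (R ^ 2 / κ) :=
              mul_le_mul_of_nonneg_left hb' hC
          _ = C / κ * R ^ 2 := by ring
      have h7 := (pow_le_pow_iff_left₀ (nr_nonneg _)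
        (mul_nonneg (Real.sqrt_nonneg _) hR0) two_ne_zero).1 h6
      exact h7.trans (mul_le_mul_of_nonneg_left hRF (Real.sqrt_nonneg _))
    have h5 : S.I (ψ * ψ * Gam S.D f g) ≤ Real.sqrt (Γf / κ) * (F + δ) := by
      have h6 := wGam_cs (S := S) (ψ := ψ) f g
      have h7 : S.I (ψ * ψ * Gam S.D f g) ^ 2 ≤ (Real.sqrt (Γf / κ) * R) ^ 2 := by
        rw [mul_pow, Real.sq_sqrt (by positivity)]
        refine h6.trans ?_
        calc Γf * Γg ≤ Γf * (R ^ 2 / κ) := mul_le_mul_of_nonneg_left hb' hΓ0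
          _ = Γf / κ * R ^ 2 := by ring
      have h8 := abs_le_of_sq_le_sq h7 (mul_nonneg (Real.sqrt_nonneg _) hR0)
      exact ((le_abs_self _).trans h8).trans
        (mul_le_mul_of_nonneg_left hRF (Real.sqrt_nonneg _))
    have h6 := mul_le_mul_of_nonneg_left h4 hε.le
    rw [h2] at h3
    nlinarith
  -- limit
  have hlim : F ^ 2 ≤ Real.sqrt (Γf / κ) * F := by
    refine le_of_forall_pos_le_add fun τ hτ => ?_
    set B := F * Real.sqrt (C / κ) * (F + 1) + Real.sqrt (Γf / κ) + F with hB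
    have hB0 : 0 ≤ B := by positivity
    set d := min (min 1 Λ) (τ / (B + 1)) with hd'
    have hd0 : 0 < d := lt_min (lt_min one_pos hΛ) (by positivity)
    have hd1 : d ≤ 1 := (min_le_left _ _).trans (min_le_left _ _)
    have hdΛ : d ≤ Λ := (min_le_left _ _).trans (min_le_right _ _)
    have hdτ : d * B ≤ τ := by
      have h1 : d ≤ τ / (B + 1) := min_le_right _ _
      rw [le_div_iff₀ (by positivity)] at h1
      nlinarith
    have h1 := key d hd0 hdΛ d hd0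
    have h2 : d * F * Real.sqrt (C / κ) * (F + d) ≤ d * (F * Real.sqrt (C / κ) * (F + 1)) := by
      have : d * F * Real.sqrt (C / κ) * (F + d) = d * (F * Real.sqrt (C / κ) * (F + d)) := by ring
      rw [this]
      refine mul_le_mul_of_nonneg_left ?_ hd0.le
      refine mul_le_mul_of_nonneg_left (by linarith) (by positivity)
    rw [hB] at hdτ
    nlinarith
  rcases eq_or_lt_of_le hF0 with h0 | h0
  · rw [← h0]
    simpa using hΓ0
  · have h1 : F ≤ Real.sqrt (Γf / κ) := by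
      rw [sq] at hlim
      exact le_of_mul_le_mul_right hlim h0
    have h2 : F ^ 2 ≤ Γf / κ := by
      have := pow_le_pow_left₀ hF0 h1 2
      rwa [Real.sq_sqrt (by positivity)] at this
    rw [le_div_iff₀ hKm] at h2
    linarith

end

end Pool.Agent.W58
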