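import Mathlib
import Pool.Agent.W58.Poin
import Pool.Agent.H906R3.YM.Approx
import Pool.Agent.H906R3.YM.LocMain

/-!
# Twists by central elements and the Poincare inequality on a set of links
-/

open MeasureTheory Matrix Pool.Agent.H906R3.YM
open scoped Matrix.Norms.Frobenius ContDiff

namespace Pool.Agent.W58

set_option linter.unusedSectionVars false

noncomputable section

/-! ### commutation of the Laplacian -/

lemma cas_of_comm {A : Type*} [CommRing A] [Algebra ℝ A] {J : Type*} [Fintype J]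
    (D : J → Derivation ℝ A A) (σ : J → J → J → ℝ)
    (hσ : ∀ i l u, D i (D l u) - D l (D i u) = ∑ k, σ i l k • D k u)
    (hanti : ∀ i j k, σ i j k = -σ k j i) (j : J) (F : A) :
    Lap D (D j F) = D j (Lap D F) := by
  unfold Lap
  rw [map_sum, ← sub_eq_zero, ← Finset.sum_sub_distrib]
  have h1 : ∀ i, D i (D i (D j F)) - D j (D i (D i F)) =
      ∑ k, σ i j k • (D i (D k F) + D k (D i F)) := by
    intro i
    have a1 := hσ i j F
    have a2 := hσ i j (D i F)
    have a3 := congrArg (D i) a1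
    rw [map_sub, map_sum] at a3
    have a4 : D i (D i (D j F)) - D j (D i (D i F)) =
        (D i (D i (D j F)) - D i (D j (D i F))) +
        (D i (D j (D i F)) - D j (D i (D i F))) := by abel
    rw [a4, a3, a2, ← Finset.sum_add_distrib]
    refine Finset.sum_congr rfl fun k _ => ?_
    rw [Derivation.map_smul, smul_add]
  rw [Finset.sum_congr rfl fun i _ => h1 i]
  set T : A := ∑ i, ∑ k, σ i j k • (D i (D k F) + D k (D i F)) with hT
  have h2 : T = -T := by
    conv_lhs => rw [hT, Finset.sum_comm]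
    rw [hT, ← Finset.sum_neg_distrib]
    refine Finset.sum_congr rfl fun i _ => ?_
    rw [← Finset.sum_neg_distrib]
    refine Finset.sum_congr rfl fun k _ => ?_
    rw [hanti, neg_smul, add_comm]
  have h3 : (2 : ℝ) • T = 0 := by
    rw [two_smul]
    nth_rewrite 2 [h2]
    exact add_neg_cancel T
  have h4 := congrArg (fun x => (1 / 2 : ℝ) • x) h3
  simpa [smul_smul] using h4

variable {G : Type*} [Group G] [TopologicalSpace G] {N n : ℕ} {L : LD G N n}
  {E : Type*} [Fintype E] [DecidableEq E]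

/-! ### twists -/

/-- multiplication of the matrices by those of `c` -/
def cM (L : LD G N n) (c : E → G) : (E → Mat N) →L[ℝ] (E → Mat N) :=
  LinearMap.toContinuousLinearMap
    { toFun := fun M e => L.rho (c e) * M e
      map_add' := fun M M' => by funext e; simp [mul_add]
      map_smul' := fun r M => by funext e; simp }

lemma mat_mul (c U : E → G) : L.mat (c * U) = cM L c (L.mat U) := by
  funext e
  show L.rho (c e * U e) = L.rho (c e) * L.rho (U e)
  rw [map_mul]

/-- translation of a smooth function -/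
def tw (c : E → G) : Sm L E →ₐ[ℝ] Sm L E where
  toFun F := ⟨fun U => F.1 (c * U), by
    obtain ⟨F, f, hf, h⟩ := F
    refine ⟨fun M => f (cM L c M), hf.comp (cM L c).contDiff, fun U => ?_⟩
    show F (c * U) = _
    rw [h, mat_mul]⟩
  map_one' := rfl
  map_mul' _ _ := rfl
  map_zero' := rfl
  map_add' _ _ := rfl
  commutes' _ := rfl

lemma tw_apply (c : E → G) (F : Sm L E) (U : E → G) : (tw c F).1 U = F.1 (c * U) := rfl

lemma ev_tw (c : E → G) (F : Sm L E) (U : E → G) : L.ev U (tw c F) = L.ev (c * U) F := rfl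

lemma tw_one (F : Sm L E) : tw (L := L) (1 : E → G) F = F := by
  refine ev_ext fun U => ?_
  rw [ev_tw, one_mul]

lemma tw_mul (c c' : E → G) (F : Sm L E) : tw (c * c') F = tw c' (tw c F) := by
  refine ev_ext fun U => ?_
  rw [ev_tw, ev_tw, ev_tw, mul_assoc]

/-- central configurations -/
def Cen (c : E → G) : Prop := ∀ e g, c e * g = g * c e

lemma Cen.pow {c : E → G} (hc : Cen c) (t : ℕ) : Cen (c ^ t) := fun e g => by
  rw [Pi.pow_apply]
  exact ((show Commute (c e) g from hc e g).pow_left t).eq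

lemma shift_cen {c : E → G} (hc : Cen c) (e : E) (a : Fin n) (t : ℝ) (U : E → G) :
    c * L.shift e a t U = L.shift e a t (c * U) := by
  unfold LD.shift
  rw [← mul_assoc, ← mul_assoc]
  congr 1
  funext e'
  rw [Pi.mul_apply, Pi.mul_apply]
  exact hc e' _

lemma Dv_tw {c : E → G} (hc : Cen c) (j : E × Fin n) (F : Sm L E) :
    L.Dv j (tw c F) = tw c (L.Dv j F) := by
  refine ev_ext fun U => ?_
  rw [ev_tw, ev_apply, ev_apply, Dv_apply, Dv_apply]
  unfold LD.dF
  congr 1
  funext t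
  rw [tw_apply, shift_cen hc]

variable [IsTopologicalGroup G] [CompactSpace G] [SecondCountableTopology G]
  [MeasurableSpace G] [BorelSpace G] (μ : Measure G) [IsProbabilityMeasure μ]
  [μ.IsMulLeftInvariant] [μ.IsOpenPosMeasure]

lemma I_tw (c : E → G) (F : Sm L E) : L.I μ (tw c F) = L.I μ F := by
  rw [I_apply, I_apply]
  exact integral_mul_left_eq_self (μ := ME μ E) F.1 c

variable {μ} in
lemma moll_tw (M : Moll L E μ) (c : E → G) (u : Sm L E) : M.M (tw c u) = tw c (M.M u) := by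
  refine ev_ext fun U => ?_
  rw [ev_tw, M.eqI, M.eqI, ← I_tw μ c (M.ker (c * U) * u), map_mul (tw c)]
  congr 2
  refine ev_ext fun W => ?_
  rw [ev_tw]
  refine (M.conj (fun e g => c e * g) (fun e g h => ?_) U W).symm
  congr 1
  group

/-- functions whose average over the powers of the twist vanishes -/
def PrT (q : ℕ) (c : E → G) (u : Sm L E) : Prop := ∑ t ∈ Finset.range q, tw (c ^ t) u = 0

lemma PrT.add {q : ℕ} {c : E → G} {u v : Sm L E} (hu : PrT q c u) (hv : PrT q c v) :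
    PrT q c (u + v) := by
  unfold PrT at *
  simp only [map_add, Finset.sum_add_distrib]
  rw [hu, hv, add_zero]

lemma PrT.smul {q : ℕ} {c : E → G} {u : Sm L E} (r : ℝ) (hu : PrT q c u) :
    PrT q c (r • u) := by
  unfold PrT at *
  simp only [map_smul]
  rw [← Finset.smul_sum, hu, smul_zero]

lemma tw_pow_fix {c : E → G} {ψ : Sm L E} (hψ : tw c ψ = ψ) (t : ℕ) : tw (c ^ t) ψ = ψ := by
  induction t with
  | zero => rw [pow_zero, tw_one]
  | succ t ih => rw [pow_succ, tw_mul, ih, hψ]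

lemma PrT.mul {q : ℕ} {c : E → G} {ψ u : Sm L E} (hψ : tw c ψ = ψ) (hu : PrT q c u) :
    PrT q c (ψ * u) := by
  unfold PrT at *
  simp only [map_mul, tw_pow_fix hψ]
  rw [← Finset.mul_sum, hu, mul_zero]

lemma PrT.map {q : ℕ} {c : E → G} {u : Sm L E} (B : Sm L E →ₗ[ℝ] Sm L E)
    (hB : ∀ t u, B (tw (c ^ t) u) = tw (c ^ t) (B u)) (hu : PrT q c u) : PrT q c (B u) := by
  unfold PrT at *
  simp only [← hB]
  rw [← map_sum, hu, map_zero]

/-! ### the derivations on a set of links -/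

variable {S' : Type*} [Fintype S'] [DecidableEq S']

/-- the algebra of smooth functions with the derivations on the links `ι s` -/
def fnP (L : LD G N n) (μ : Measure G) [IsProbabilityMeasure μ] [μ.IsMulLeftInvariant]
    (ι : S' → E) : Fn (Sm L E) (E → G) (S' × Fin n) where
  ev := L.ev
  ext := fun F H h => ev_ext h
  D := fun j => L.Dv (ι j.1, j.2)
  I := L.I μ
  I_D := fun j u => I_D_zero μ _ u
  I_mono := fun F H h => I_mono μ h

lemma fnP_nr (ι : S' → E) (u : Sm L E) : (fnP L μ ι).nr u = (fnE L μ E).nr u := rfl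

lemma fnP_comm {ι : S' → E} (hι : Function.Injective ι) (i l : S' × Fin n) (u : Sm L E) :
    (fnP L μ ι).D i ((fnP L μ ι).D l u) - (fnP L μ ι).D l ((fnP L μ ι).D i u) =
      ∑ k, L.sig i l k • (fnP L μ ι).D k u := by
  have h1 := Dv_comm (L := L) (ι i.1, i.2) (ι l.1, l.2) u
  rw [sum_sig] at h1
  rw [sum_sig]
  refine Eq.trans h1 ?_
  by_cases h : i.1 = l.1
  · rw [if_pos h, if_pos (by rw [h])]
    rfl
  · rw [if_neg h, if_neg fun hh => h (hι hh)]

lemma fnP_anti (i j k : S' × Fin n) : L.sig i j k = -L.sig k j i := sig_anti i j k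

lemma fnP_ric {K : ℝ}
    (hK : ∀ v : Fin n → ℝ, K * ∑ b, v b ^ 2 ≤ 1 / 4 * ∑ a, ∑ c, (∑ b, L.sc a c b * v b) ^ 2)
    (v : S' × Fin n → ℝ) :
    K * ∑ k, v k ^ 2 ≤ 1 / 4 * ∑ i, ∑ l, (∑ k, L.sig (S := S') i l k * v k) ^ 2 := by
  have h1 : ∀ i l : S' × Fin n, (∑ k, L.sig i l k * v k) =
      if i.1 = l.1 then -∑ b, L.sc i.2 l.2 b * v (i.1, b) else 0 := fun i l => by
    have := sum_sig (L := L) i l v
    simpa only [smul_eq_mul] using this
  simp only [h1]
  rw [Fintype.sum_prod_type, Fintype.sum_prod_type, Finset.mul_sum, Finset.mul_sum]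
  refine Finset.sum_le_sum fun s _ => ?_
  refine (hK fun b => v (s, b)).trans (le_of_eq ?_)
  congr 1
  refine Finset.sum_congr rfl fun a _ => ?_
  rw [Fintype.sum_prod_type, Finset.sum_eq_single s]
  · refine Finset.sum_congr rfl fun c _ => ?_
    simp
  · intro s' _ hs'
    refine Finset.sum_eq_zero fun c _ => ?_
    rw [if_neg fun hh => hs' hh.symm]
    simp
  · simp

/-- the partial Schroedinger operator -/
def Bq (L : LD G N n) (μ : Measure G) [IsProbabilityMeasure μ] [μ.IsMulLeftInvariant]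
    (ι : S' → E) (V : Sm L E) : Sm L E →ₗ[ℝ] Sm L E where
  toFun u := -Lap (fnP L μ ι).D u + V * u
  map_add' u v := by
    unfold Lap
    simp only [map_add, Finset.sum_add_distrib, mul_add]
    abel
  map_smul' r u := by
    unfold Lap
    simp only [Derivation.map_smul, ← Finset.smul_sum, mul_smul_comm, RingHom.id_apply, smul_add,
      smul_neg]

lemma Bq_apply (ι : S' → E) (V u : Sm L E) :
    Bq L μ ι V u = -Lap (fnP L μ ι).D u + V * u := rfl

variable {μ} in
lemma moll_bound (M : Moll L E μ) (B : Sm L E →ₗ[ℝ] Sm L E) : ∃ C : ℝ, 0 ≤ C ∧ ∀ u,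
    (fnE L μ E).nr (B (M.M u)) ≤ C * (fnE L μ E).nr u := by
  obtain ⟨ι, _, q, p, h⟩ := M.fin
  refine ⟨∑ i, (fnE L μ E).nr (q i) * (fnE L μ E).nr (B (p i)),
    Finset.sum_nonneg fun i _ => mul_nonneg (nr_nonneg _) (nr_nonneg _), fun u => ?_⟩
  rw [h u, map_sum]
  refine (nr_sum _ _).trans ?_
  rw [Finset.sum_mul]
  refine Finset.sum_le_sum fun i _ => ?_
  rw [map_smul, nr_smul]
  have h1 : |∫ W, L.ev W (q i) * L.ev W u ∂(ME μ E)| ≤
      (fnE L μ E).nr (q i) * (fnE L μ E).nr u := nr_cs (S := fnE L μ E) (q i) u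
  calc _ ≤ (fnE L μ E).nr (q i) * (fnE L μ E).nr u * (fnE L μ E).nr (B (p i)) :=
        mul_le_mul_of_nonneg_right h1 (nr_nonneg _)
    _ = _ := by ring

variable {μ} in
lemma moll_Gam (M : Moll L E μ) (ι : S' → E) (u : Sm L E) :
    0 ≤ L.I μ (Gam (fnP L μ ι).D u (M.M (M.M u))) := by
  unfold Gam
  rw [map_sum]
  refine Finset.sum_nonneg fun j _ => ?_
  show 0 ≤ L.I μ (L.Dv (ι j.1, j.2) u * L.Dv (ι j.1, j.2) (M.M (M.M u)))
  rw [M.comm _ (M.M u), ← M.symmI, ← M.comm]
  exact I_sq_nonneg μ _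

/-- density of the range of `-Δ + V` for `V ≥ 1` -/
theorem dense_Bq (hN : 0 < N) (ι : S' → E) {V : Sm L E} (hV1 : ∀ U, 1 ≤ L.ev U V)
    (Pr : Sm L E → Prop) (hadd : ∀ u v, Pr u → Pr v → Pr (u + v))
    (hsmul : ∀ (r : ℝ) u, Pr u → Pr (r • u))
    (hPB : ∀ u, Pr u → Pr (Bq L μ ι V u)) (hPM : ∀ (M : Moll L E μ) u, Pr u → Pr (M.M u))
    {f : Sm L E} (hf : Pr f) {δ : ℝ} (hδ : 0 < δ) :
    ∃ w, Pr w ∧ (fnP L μ ι).nr (Bq L μ ι V w - f) ≤ δ := by
  set S := fnP L μ ι with hS
  set v := nrmS L V with hv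
  have hvU : ∀ U, |L.ev U V| ≤ v := fun U => le_nrmS V U
  have hv0 : 0 ≤ v := (abs_nonneg _).trans (hvU 1)
  refine dense_range (S := S) Pr hadd hsmul (Bq L μ ι V) hPB (Λ := v) hv0 ?_ hf hδ
  intro r hr η hη
  obtain ⟨M, hM⟩ := exists_moll (L := L) (E := E) μ hN r (half_pos hη)
  have hMr : S.nr (M.M r - r) ≤ η / 2 := nr_le_of_abs μ (half_pos hη).le fun U => by
    rw [map_sub]; exact hM U
  obtain ⟨C, hC0, hC⟩ := moll_bound M (Bq L μ ι V)
  refine ⟨M.M ∘ₗ M.M, fun u hu => hPM M _ (hPM M _ hu), ?_, ?_, ?_, C, hC0, ?_⟩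
  · have h1 : (M.M ∘ₗ M.M) r - r = M.M (M.M r - r) + (M.M r - r) := by
      rw [map_sub, LinearMap.comp_apply]; abel
    rw [h1]
    refine (nr_add _ _).trans ?_
    have h2 : S.nr (M.M (M.M r - r)) ≤ S.nr (M.M r - r) := M.contr (M.M r - r)
    linarith
  · intro u
    have h1 : S.nr (M.M (M.M u)) ≤ S.nr (M.M u) := M.contr (M.M u)
    exact h1.trans (M.contr u)
  · intro u
    rw [LinearMap.comp_apply]
    set T := M.M (M.M u) with hT
    have h1 : S.I (u * (Bq L μ ι V T)) = S.I (Gam S.D u T) + S.I (V * (u * T)) := by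
      have e1 : u * (-Lap (fnP L μ ι).D T + V * T) =
          -(u * Lap (fnP L μ ι).D T) + V * (u * T) := by ring
      rw [Bq_apply, e1, map_add, map_neg, S.I_Lap, neg_neg]
    have h3 : 0 ≤ S.I (Gam S.D u T) := moll_Gam M ι u
    have h4 : S.I (V * (u * T)) = S.I (V * (u * u)) + S.I ((V * u) * (T - u)) := by
      rw [← map_add]; congr 1; ring
    have h5 : S.nr u ^ 2 ≤ S.I (V * (u * u)) := by
      rw [nr_sq]
      refine I_mono μ fun U => ?_
      rw [map_mul (L.ev U) V]
      have := mul_le_mul_of_nonneg_right (hV1 U) (show 0 ≤ L.ev U (u * u) by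
        rw [map_mul]; exact mul_self_nonneg _)
      linarith
    have h6 : |S.I ((V * u) * (T - u))| ≤ v * S.nr u * S.nr (T - u) := by
      refine (nr_cs (S := S) (V * u) (T - u)).trans ?_
      exact mul_le_mul_of_nonneg_right (nr_mul_le μ hv0 hvU) (nr_nonneg _)
    rw [h1, h4]
    have h9 := (abs_le.1 h6).1
    linarith
  · intro u
    have h1 := hC (M.M u)
    refine h1.trans (mul_le_mul_of_nonneg_left ?_ hC0)
    exact M.contr u

end

end Pool.Agent.W58
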