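import Mathlib
import Pool.Agent.W58.Tw

/-!
# The Poincare inequality for functions twisted by a central element on a set of links
-/

open MeasureTheory Matrix Pool.Agent.H906R3.YM
open scoped Matrix.Norms.Frobenius ContDiff

namespace Pool.Agent.W58

set_option linter.unusedSectionVars false
set_option linter.unusedVariables false

noncomputable section

variable {G : Type*} [Group G] [TopologicalSpace G] {N n : ℕ} {L : LD G N n}
  {E : Type*} [Fintype E] [DecidableEq E]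
variable [IsTopologicalGroup G] [CompactSpace G] [SecondCountableTopology G]
  [MeasurableSpace G] [BorelSpace G] (μ : Measure G) [IsProbabilityMeasure μ]
  [μ.IsMulLeftInvariant] [μ.IsOpenPosMeasure]
  {S' : Type*} [Fintype S'] [DecidableEq S']

lemma nr_tw (c : E → G) (u : Sm L E) : (fnE L μ E).nr (tw c u) = (fnE L μ E).nr u := by
  unfold Fn.nr
  have e : (fnE L μ E).I (tw c u * tw c u) = (fnE L μ E).I (u * u) := by
    rw [← map_mul]
    exact I_tw μ c (u * u)
  rw [e]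

/-- the energy of the links `ι` -/
def gI (L : LD G N n) (μ : Measure G) [IsProbabilityMeasure μ] [μ.IsMulLeftInvariant]
    (ι : S' → E) (u : Sm L E) : ℝ := L.I μ (Gam (fnP L μ ι).D u u)

lemma nr_Dv_le (ι : S' → E) (j : S' × Fin n) (u : Sm L E) :
    (fnE L μ E).nr (L.Dv (ι j.1, j.2) u) ≤ Real.sqrt (gI L μ ι u) := by
  unfold Fn.nr gI Gam
  refine Real.sqrt_le_sqrt ?_
  rw [map_sum]
  exact Finset.single_le_sum (f := fun j : S' × Fin n =>
    L.I μ ((fnP L μ ι).D j u * (fnP L μ ι).D j u)) (fun j _ => I_sq_nonneg μ _) (Finset.mem_univ j)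

/-- crude control of a translation by the gradient in the links `ι` -/
def Acc (L : LD G N n) (μ : Measure G) [IsProbabilityMeasure μ] [μ.IsMulLeftInvariant]
    (ι : S' → E) (d : E → G) : Prop :=
  ∃ C : ℝ, 0 ≤ C ∧ ∀ u : Sm L E,
    (fnE L μ E).nr (tw d u - u) ≤ C * Real.sqrt (gI L μ ι u)

variable {μ}

lemma Acc.one (ι : S' → E) : Acc L μ ι (1 : E → G) :=
  ⟨0, le_rfl, fun u => by rw [tw_one, sub_self, nr_zero, zero_mul]⟩

lemma Acc.mul {ι : S' → E} {d d' : E → G} (h : Acc L μ ι d) (h' : Acc L μ ι d') :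
    Acc L μ ι (d * d') := by
  obtain ⟨C, hC, h⟩ := h
  obtain ⟨C', hC', h'⟩ := h'
  refine ⟨C + C', add_nonneg hC hC', fun u => ?_⟩
  have e : tw (d * d') u - u = tw d' (tw d u - u) + (tw d' u - u) := by
    rw [tw_mul, map_sub]; abel
  rw [e, add_mul]
  refine (nr_add _ _).trans (add_le_add ?_ (h' u))
  rw [nr_tw]
  exact h u

lemma Acc.pow {ι : S' → E} {d : E → G} (h : Acc L μ ι d) (t : ℕ) : Acc L μ ι (d ^ t) := by
  induction t with
  | zero => rw [pow_zero]; exact Acc.one ι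
  | succ t ih => rw [pow_succ]; exact ih.mul h

/-- the derivative of a smooth function along a path in one link -/
lemma hasDerivAt_path {γ : ℝ → G} {y : Fin n → ℝ}
    (hd : ∀ t, HasDerivAt (fun s => L.rho (γ s)) ((∑ a, y a • L.X a) * L.rho (γ t)) t)
    (e : E) (u : Sm L E) (U : E → G) (t : ℝ) :
    HasDerivAt (fun s => u.1 (Pi.mulSingle e (γ s) * U))
      ((∑ a, y a • L.Dv (e, a) u).1 (Pi.mulSingle e (γ t) * U)) t := by
  obtain ⟨u, f, hf, h⟩ := u
  have h1 : HasDerivAt (fun s => L.mat (Pi.mulSingle e (γ s) * U))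
      (∑ a, y a • L.vf e a (L.mat (Pi.mulSingle e (γ t) * U))) t := by
    refine hasDerivAt_pi.2 fun e' => ?_
    by_cases he : e' = e
    · subst he
      have e1 : (fun s => L.mat (Pi.mulSingle e' (γ s) * U) e') =
          fun s => L.rho (γ s) * L.rho (U e') := by
        funext s
        simp [LD.mat]
      have e2 : (∑ a, y a • L.vf e' a (L.mat (Pi.mulSingle e' (γ t) * U))) e' =
          (∑ a, y a • L.X a) * L.rho (γ t) * L.rho (U e') := by
        rw [Finset.sum_apply, Finset.sum_mul, Finset.sum_mul]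
        refine Finset.sum_congr rfl fun a _ => ?_
        simp [LD.vf, LD.mat, mul_assoc]
      rw [e1, e2]
      exact (hd t).mul_const _
    · have e1 : (fun s => L.mat (Pi.mulSingle e (γ s) * U) e') = fun _ => L.rho (U e') := by
        funext s
        simp [LD.mat, Pi.mulSingle_eq_of_ne he]
      have e2 : (∑ a, y a • L.vf e a (L.mat (Pi.mulSingle e (γ t) * U))) e' = 0 := by
        rw [Finset.sum_apply]
        refine Finset.sum_eq_zero fun a _ => ?_
        simp [LD.vf, Pi.single_eq_of_ne he]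
      rw [e1, e2]
      exact hasDerivAt_const _ _
  have h2 : HasFDerivAt f (fderiv ℝ f (L.mat (Pi.mulSingle e (γ t) * U)))
      (L.mat (Pi.mulSingle e (γ t) * U)) :=
    (hf.differentiable (by simp)).differentiableAt.hasFDerivAt
  have h3 := h2.comp_hasDerivAt t h1
  have e1 : (fun s => u (Pi.mulSingle e (γ s) * U)) =
      f ∘ fun s => L.mat (Pi.mulSingle e (γ s) * U) := by
    funext s; exact h _
  show HasDerivAt (fun s => u (Pi.mulSingle e (γ s) * U)) _ t
  rw [e1]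
  have e2 : (∑ a, y a • L.Dv (e, a) (⟨u, ⟨f, hf, h⟩⟩ : Sm L E)).1 (Pi.mulSingle e (γ t) * U) =
      fderiv ℝ f (L.mat (Pi.mulSingle e (γ t) * U))
        (∑ a, y a • L.vf e a (L.mat (Pi.mulSingle e (γ t) * U))) := by
    rw [← ev_apply, map_sum, map_sum]
    refine Finset.sum_congr rfl fun a _ => ?_
    rw [map_smul, map_smul, ev_apply, Dv_apply, dF_ext hf h]
  rw [e2]
  exact h3

lemma Acc.path {ι : S' → E} {γ : ℝ → G} {y : Fin n → ℝ}
    (hd : ∀ t, HasDerivAt (fun s => L.rho (γ s)) ((∑ a, y a • L.X a) * L.rho (γ t)) t)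
    (h0 : γ 0 = 1) (s : S') : Acc L μ ι (Pi.mulSingle (ι s) (γ 1)) := by
  refine ⟨∑ a, |y a|, Finset.sum_nonneg fun a _ => abs_nonneg _, fun u => ?_⟩
  set e := ι s with he
  set Y : Sm L E := ∑ a, y a • L.Dv (e, a) u with hY
  set d : ℝ → E → G := fun t => Pi.mulSingle e (γ t) with hdd
  have hYn : (fnE L μ E).nr Y ≤ (∑ a, |y a|) * Real.sqrt (gI L μ ι u) := by
    rw [hY]
    refine (nr_sum _ _).trans ?_
    rw [Finset.sum_mul]
    refine Finset.sum_le_sum fun a _ => ?_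
    rw [nr_smul]
    exact mul_le_mul_of_nonneg_left (nr_Dv_le μ ι (s, a) u) (abs_nonneg _)
  refine le_trans ?_ hYn
  set w : Sm L E := tw (d 1) u - u with hw
  show (fnE L μ E).nr w ≤ _
  set h : ℝ → ℝ := fun t => L.I μ (w * tw (d t) u) with hh
  obtain ⟨C, hC⟩ : ∃ C, ∀ U, |Y.1 U| ≤ C := ⟨nrmS L Y, le_nrmS Y⟩
  obtain ⟨C', hC'⟩ : ∃ C, ∀ U, |w.1 U| ≤ C := ⟨nrmS L w, le_nrmS w⟩
  have hder : ∀ t, HasDerivAt h (L.I μ (w * tw (d t) Y)) t := by
    intro t
    have hder := hasDerivAt_integral_of_dominated_loc_of_deriv_le (μ := ME μ E)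
      (F := fun t U => (w * tw (d t) u).1 U)
      (F' := fun t U => (w * tw (d t) Y).1 U) (x₀ := t) (s := Set.univ)
      (bound := fun _ => C' * C) Filter.univ_mem
      (Filter.Eventually.of_forall fun t => (Sm_cont _).aestronglyMeasurable)
      (integrable_cont μ (Sm_cont _))
      ((Sm_cont _).aestronglyMeasurable)
      (Filter.Eventually.of_forall fun U t _ => by
        show ‖w.1 U * (tw (d t) Y).1 U‖ ≤ _
        rw [norm_mul]
        exact mul_le_mul (hC' U) (hC _) (abs_nonneg _) ((abs_nonneg _).trans (hC' U)))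
      (integrable_const _)
      (Filter.Eventually.of_forall fun U t _ => by
        exact (hasDerivAt_path hd e u U t).const_mul (w.1 U))
    exact hder.2
  have hb : ∀ t, ‖L.I μ (w * tw (d t) Y)‖ ≤ (fnE L μ E).nr w * (fnE L μ E).nr Y := by
    intro t
    have := nr_cs (S := fnE L μ E) w (tw (d t) Y)
    rw [nr_tw] at this
    exact this
  have h1 := norm_image_sub_le_of_norm_deriv_le_segment_01' (f := h)
    (f' := fun t => L.I μ (w * tw (d t) Y)) (C := (fnE L μ E).nr w * (fnE L μ E).nr Y)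
    (fun t _ => (hder t).hasDerivWithinAt) (fun t _ => hb t)
  have h2 : h 1 - h 0 = (fnE L μ E).nr w ^ 2 := by
    rw [nr_sq, hh]
    dsimp only
    have e0 : tw (L := L) (d 0) u = u := by
      have : d 0 = 1 := by rw [hdd]; simp [h0]
      rw [this, tw_one]
    rw [e0, ← map_sub, ← mul_sub]
  rw [h2, Real.norm_eq_abs, abs_of_nonneg (sq_nonneg _), sq] at h1
  rcases (nr_nonneg (S := fnE L μ E) w).eq_or_lt with h3 | h3
  · rw [← h3]; exact nr_nonneg _
  · exact le_of_mul_le_mul_left h1 h3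

/-- products over a set of links -/
lemma Acc.of_single {ι : S' → E} {c : E → G} (h1 : ∀ s, Acc L μ ι (Pi.mulSingle (ι s) (c (ι s))))
    (h2 : ∀ e, e ∉ Set.range ι → c e = 1) : Acc L μ ι c := by
  have h3 : ∀ T : Finset E, Acc L μ ι (fun e => if e ∈ T then c e else 1) := by
    intro T
    induction T using Finset.induction_on with
    | empty =>
      have e : (fun e => if e ∈ (∅ : Finset E) then c e else 1) = (1 : E → G) := by
        funext e
        simp
      rw [e]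
      exact Acc.one ι
    | insert a T ha ih =>
      have e : (fun e => if e ∈ insert a T then c e else 1) =
          Pi.mulSingle a (c a) * (fun e => if e ∈ T then c e else 1) := by
        funext e
        rw [Pi.mul_apply]
        by_cases hea : e = a
        · subst hea
          simp [ha]
        · simp [hea]
      rw [e]
      refine Acc.mul ?_ ih
      by_cases hr : a ∈ Set.range ι
      · obtain ⟨s, rfl⟩ := hr
        exact h1 s
      · rw [h2 a hr, Pi.mulSingle_one]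
        exact Acc.one ι
  have := h3 Finset.univ
  simpa using this

/-- the crude Poincare inequality -/
lemma crude {ι : S' → E} {c : E → G} (hA : Acc L μ ι c) {q : ℕ} (hq : 0 < q) {ψ φ : Sm L E}
    (h : ψ * φ = 1) : ∃ C : ℝ, 0 ≤ C ∧ ∀ g, PrT q c g →
      L.I μ (ψ * ψ * (g * g)) ≤ C * L.I μ (ψ * ψ * Gam (fnP L μ ι).D g g) := by
  have hch : ∀ t : ℕ, ∃ C : ℝ, 0 ≤ C ∧ ∀ u : Sm L E,
    (fnE L μ E).nr (tw (c ^ t) u - u) ≤ C * Real.sqrt (gI L μ ι u) := fun t => hA.pow t
  choose C hC hCu using hch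
  set C1 := ∑ t ∈ Finset.range q, C t with hC1
  have hC10 : 0 ≤ C1 := Finset.sum_nonneg fun t _ => hC t
  set a := nrmS L ψ with ha
  set b := nrmS L φ with hb
  have ha0 : 0 ≤ a := (abs_nonneg _).trans (le_nrmS ψ 1)
  have hb0 : 0 ≤ b := (abs_nonneg _).trans (le_nrmS φ 1)
  refine ⟨a ^ 2 * (C1 ^ 2 * b ^ 2), by positivity, fun g hg => ?_⟩
  have h1 : (fnE L μ E).nr g ≤ C1 * Real.sqrt (gI L μ ι g) := by
    have e1 : (q : ℝ) • g = -∑ t ∈ Finset.range q, (tw (c ^ t) g - g) := by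
      rw [Finset.sum_sub_distrib, show ∑ t ∈ Finset.range q, tw (c ^ t) g = 0 from hg]
      simp [Nat.cast_smul_eq_nsmul]
    have h2 : (q : ℝ) * (fnE L μ E).nr g ≤ C1 * Real.sqrt (gI L μ ι g) := by
      have : (q : ℝ) * (fnE L μ E).nr g = (fnE L μ E).nr ((q : ℝ) • g) := by
        rw [nr_smul, abs_of_nonneg (Nat.cast_nonneg _)]
      rw [this, e1, nr_neg]
      refine (nr_sum _ _).trans ?_
      rw [hC1, Finset.sum_mul]
      exact Finset.sum_le_sum fun t _ => hCu t g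
    refine le_trans ?_ h2
    have h3 : (1 : ℝ) ≤ q := by exact_mod_cast hq
    nlinarith [nr_nonneg (S := fnE L μ E) g]
  have hGpos : 0 ≤ gI L μ ι g := by
    unfold gI Gam
    rw [map_sum]
    exact Finset.sum_nonneg fun j _ => I_sq_nonneg μ _
  have h2 : L.I μ (g * g) ≤ C1 ^ 2 * gI L μ ι g := by
    have h3 := pow_le_pow_left₀ (nr_nonneg _) h1 2
    rw [nr_sq, mul_pow, Real.sq_sqrt hGpos] at h3
    exact h3
  have h3 : L.I μ (ψ * ψ * (g * g)) ≤ a ^ 2 * L.I μ (g * g) := by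
    have e0 : a ^ 2 * L.I μ (g * g) = L.I μ ((a ^ 2) • (g * g)) := by
      rw [map_smul, smul_eq_mul]
    rw [e0]
    refine I_mono μ fun U => ?_
    rw [map_mul, map_mul, map_smul, smul_eq_mul]
    refine mul_le_mul_of_nonneg_right ?_ (by rw [map_mul]; exact mul_self_nonneg _)
    have := pow_le_pow_left₀ (abs_nonneg _) (le_nrmS ψ U) 2
    rw [sq_abs, sq] at this
    exact this
  have h4 : gI L μ ι g ≤ b ^ 2 * L.I μ (ψ * ψ * Gam (fnP L μ ι).D g g) := by
    unfold gI
    have e0 : b ^ 2 * L.I μ (ψ * ψ * Gam (fnP L μ ι).D g g) =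
        L.I μ ((b ^ 2) • (ψ * ψ * Gam (fnP L μ ι).D g g)) := by
      rw [map_smul, smul_eq_mul]
    rw [e0]
    refine I_mono μ fun U => ?_
    have e1 : Gam (fnP L μ ι).D g g = φ * φ * (ψ * ψ * Gam (fnP L μ ι).D g g) := by
      linear_combination (-(1 + ψ * φ) * Gam (fnP L μ ι).D g g) * h
    rw [map_smul, smul_eq_mul]
    conv_lhs => rw [e1]
    rw [map_mul (L.ev U) (φ * φ), map_mul (L.ev U) φ]
    have hpos : 0 ≤ L.ev U (ψ * ψ * Gam (fnP L μ ι).D g g) := by
      rw [map_mul, map_mul]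
      refine mul_nonneg (mul_self_nonneg _) ?_
      unfold Gam
      rw [map_sum]
      exact Finset.sum_nonneg fun j _ => by rw [map_mul]; exact mul_self_nonneg _
    refine mul_le_mul_of_nonneg_right ?_ hpos
    have := pow_le_pow_left₀ (abs_nonneg _) (le_nrmS φ U) 2
    rw [sq_abs, sq] at this
    exact this
  calc L.I μ (ψ * ψ * (g * g)) ≤ a ^ 2 * L.I μ (g * g) := h3
    _ ≤ a ^ 2 * (C1 ^ 2 * gI L μ ι g) := mul_le_mul_of_nonneg_left h2 (by positivity)
    _ ≤ a ^ 2 * (C1 ^ 2 * (b ^ 2 * L.I μ (ψ * ψ * Gam (fnP L μ ι).D g g))) :=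
        mul_le_mul_of_nonneg_left (mul_le_mul_of_nonneg_left h4 (by positivity)) (by positivity)
    _ = _ := by ring

lemma tw_inv_fix {c : E → G} {ψ φ : Sm L E} (h : ψ * φ = 1) (hψ : tw c ψ = ψ) :
    tw c φ = φ := by
  have h1 : ψ * tw c φ = 1 := by
    rw [← hψ, ← map_mul, h, map_one]
  calc tw c φ = (ψ * φ) * tw c φ := by rw [h, one_mul]
    _ = φ * (ψ * tw c φ) := by ring
    _ = φ := by rw [h1, mul_one]

/-- **Poincare inequality on a set of links for functions twisted by a central configuration.** -/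
theorem poin_E (hN : 0 < N) {ι : S' → E} (hι : Function.Injective ι) {ψ φ : Sm L E}
    (h : ψ * φ = 1) {K m : ℝ} (hKm : 0 < K - 2 * m)
    (hK : ∀ v : Fin n → ℝ, K * ∑ b, v b ^ 2 ≤ 1 / 4 * ∑ a, ∑ c, (∑ b, L.sc a c b * v b) ^ 2)
    (hm : ∀ U : E → G, ∀ v : S' × Fin n → ℝ,
      ∑ i, ∑ j, v i * v j * L.ev U (L.Dv (ι j.1, j.2) (φ * L.Dv (ι i.1, i.2) ψ)) ≤
        m * ∑ i, v i ^ 2)
    {c : E → G} (hc : Cen c) (hψ : tw c ψ = ψ) (hA : Acc L μ ι c) {q : ℕ} (hq : 0 < q)
    {f : Sm L E} (hf : PrT q c f) :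
    (K - 2 * m) * L.I μ (ψ * ψ * (f * f)) ≤ L.I μ (ψ * ψ * Gam (fnP L μ ι).D f f) := by
  obtain ⟨C, hC, hcr⟩ := crude (μ := μ) hA hq h
  have hφ : tw c φ = φ := tw_inv_fix h hψ
  have hPD : ∀ j : S' × Fin n, ∀ u, PrT q c u → PrT q c (L.Dv (ι j.1, j.2) u) := by
    intro j u hu
    exact PrT.map (L.Dv (ι j.1, j.2)).toLinearMap (fun t v => Dv_tw (hc.pow t) _ v) hu
  have hDψ : ∀ j : S' × Fin n, tw c (L.Dv (ι j.1, j.2) ψ) = L.Dv (ι j.1, j.2) ψ := by
    intro j
    rw [← Dv_tw hc, hψ]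
  have hPsum : ∀ (T : Finset (S' × Fin n)) (u : S' × Fin n → Sm L E), (∀ j, PrT q c (u j)) →
      PrT q c (∑ j ∈ T, u j) := by
    intro T u hu
    induction T using Finset.induction_on with
    | empty =>
      rw [Finset.sum_empty]
      have := (hf.smul (L := L) 0)
      rwa [zero_smul] at this
    | insert a T ha ih => rw [Finset.sum_insert ha]; exact (hu a).add ih
  have hPLap : ∀ u, PrT q c u → PrT q c (Lap (fnP L μ ι).D u) := by
    intro u hu
    exact hPsum _ _ fun j => hPD j _ (hPD j _ hu)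
  have hLapψ : tw c (Lap (fnP L μ ι).D ψ) = Lap (fnP L μ ι).D ψ := by
    unfold Lap
    rw [map_sum]
    refine Finset.sum_congr rfl fun j _ => ?_
    show tw c (L.Dv (ι j.1, j.2) (L.Dv (ι j.1, j.2) ψ)) = L.Dv (ι j.1, j.2) (L.Dv (ι j.1, j.2) ψ)
    rw [← Dv_tw hc, hDψ]
  set V0 : Sm L E := φ * Lap (fnP L μ ι).D ψ with hV0
  have hV0t : tw c V0 = V0 := by rw [hV0, map_mul, hφ, hLapψ]
  set Λ : ℝ := 1 + nrmS L V0 with hΛ
  have hn0 : 0 ≤ nrmS L V0 := (abs_nonneg _).trans (le_nrmS V0 1)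
  have hΛ0 : 0 < Λ := by linarith
  set V : Sm L E := V0 + algebraMap ℝ _ Λ with hV
  have hVt : tw c V = V := by
    rw [hV, map_add, hV0t, AlgHom.commutes]
  have hV1 : ∀ U, 1 ≤ L.ev U V := by
    intro U
    rw [hV, map_add, AlgHom.commutes]
    have h1 : |V0.1 U| ≤ nrmS L V0 := le_nrmS V0 U
    have h2 := (abs_le.1 h1).1
    have h3 : L.ev U V0 = V0.1 U := rfl
    rw [h3, hΛ]
    show 1 ≤ V0.1 U + (1 + nrmS L V0)
    linarith
  have hVw : ∀ w : Sm L E, Bq L μ ι V w =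
      -Lap (fnP L μ ι).D w + (φ * Lap (fnP L μ ι).D ψ) * w + Λ • w := by
    intro w
    rw [Bq_apply, hV, add_mul, Algebra.smul_def, ← hV0]
    abel
  refine poincare (S := fnP L μ ι) h hKm (L.sig (S := S')) (fnP_comm μ hι) fnP_anti
    (cas_of_comm (fnP L μ ι).D (L.sig (S := S')) (fnP_comm μ hι) fnP_anti) (fnP_ric hK) hm
    (PrT q c) (fun u v hu hv => hu.add hv) (fun r u hu => hu.smul r)
    (fun u hu => hu.mul hφ) (fun u hu => hu.mul hψ) ?_ hΛ0 ?_ hC hcr hf
  · intro u hu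
    rw [LL_eq_sum]
    refine hPsum _ _ fun j => ?_
    refine (hPD j _ (hPD j _ hu)).add ?_
    have e : (2 : Sm L E) * ((φ * (fnP L μ ι).D j ψ) * (fnP L μ ι).D j u) =
        (2 : ℝ) • ((φ * (fnP L μ ι).D j ψ) * (fnP L μ ι).D j u) := by
      rw [Algebra.smul_def, map_ofNat]
    rw [e]
    refine PrT.smul 2 (PrT.mul ?_ (hPD j _ hu))
    show tw c (φ * L.Dv (ι j.1, j.2) ψ) = φ * L.Dv (ι j.1, j.2) ψ
    rw [map_mul, hφ, hDψ]
  · intro f hf δ hδ
    obtain ⟨w, hw, hwd⟩ := dense_Bq (μ := μ) hN ι hV1 (PrT q c) (fun u v hu hv => hu.add hv)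
      (fun r u hu => hu.smul r) (fun u hu => by
        rw [Bq_apply]
        have h1 := (hPLap u hu).smul (-1)
        rw [neg_one_smul] at h1
        exact h1.add (hu.mul hVt))
      (fun M u hu => PrT.map M.M (fun t v => moll_tw M _ v) hu) hf hδ
    refine ⟨w, hw, ?_⟩
    rw [← hVw]
    exact hwd

end

end Pool.Agent.W58
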