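import Mathlib
import Pool.Agent.W58.PoinE
import Pool.Agent.H906R3.YM.Chain2

/-!
# Disjoint cuts: the lower bound of the energy in a sector twisted on every cut
-/

open MeasureTheory Matrix Pool.Agent.H906R3.YM
open scoped Matrix.Norms.Frobenius ContDiff

namespace Pool.Agent.W58

set_option linter.unusedSectionVars false
set_option linter.unusedVariables false

noncomputable section

variable {G : Type*} [Group G] [TopologicalSpace G] {N n : ℕ} {L : LD G N n}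
  {E : Type*} [Fintype E] [DecidableEq E]
variable [IsTopologicalGroup G] [CompactSpace G] [SecondCountableTopology G]
  [MeasurableSpace G] [BorelSpace G] {μ : Measure G} [IsProbabilityMeasure μ]
  [μ.IsMulLeftInvariant] [μ.IsOpenPosMeasure]

/-- the links of a finite set -/
abbrev cι (C : Finset E) : {e // e ∈ C} → E := Subtype.val

/-- restriction of a bound of a quadratic form to a set of links -/
lemma restr_form (C : Finset E) (Q : E × Fin n → E × Fin n → ℝ) {m : ℝ}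
    (hQ : ∀ v : E × Fin n → ℝ, ∑ i, ∑ j, v i * v j * Q i j ≤ m * ∑ i, v i ^ 2)
    (v : {e // e ∈ C} × Fin n → ℝ) :
    ∑ i, ∑ j, v i * v j * Q (cι C i.1, i.2) (cι C j.1, j.2) ≤ m * ∑ i, v i ^ 2 := by
  set w : E × Fin n → ℝ := fun i => if h : i.1 ∈ C then v (⟨i.1, h⟩, i.2) else 0 with hw
  have hsum : ∀ F : E × Fin n → ℝ, (∀ i, i.1 ∉ C → F i = 0) →
      ∑ i, F i = ∑ i : {e // e ∈ C} × Fin n, F (i.1.1, i.2) := by
    intro F hF
    rw [Fintype.sum_prod_type, Fintype.sum_prod_type]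
    have h1 : ∑ e, ∑ a, F (e, a) = ∑ e ∈ C, ∑ a, F (e, a) := by
      refine (Finset.sum_subset (Finset.subset_univ C) fun e _ he => ?_).symm
      exact Finset.sum_eq_zero fun a _ => hF (e, a) he
    rw [h1, ← Finset.sum_coe_sort C]
  have hwv : ∀ i : {e // e ∈ C} × Fin n, w (i.1.1, i.2) = v i := by
    intro i
    rw [hw]
    dsimp only
    rw [dif_pos i.1.2]
  have h0 : ∀ i : E × Fin n, i.1 ∉ C → w i = 0 := fun i hi => by rw [hw]; exact dif_neg hi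
  have h1 := hQ w
  rw [hsum (fun i => ∑ j, w i * w j * Q i j) (fun i hi => Finset.sum_eq_zero fun j _ => by
    rw [h0 i hi, zero_mul, zero_mul]), hsum (fun i => w i ^ 2) (fun i hi => by
    rw [h0 i hi]; norm_num)] at h1
  refine le_trans (le_of_eq ?_) (h1.trans (le_of_eq ?_))
  · refine Finset.sum_congr rfl fun i _ => ?_
    rw [hsum (fun j => w (i.1.1, i.2) * w j * Q (i.1.1, i.2) j) (fun j hj => by
      rw [h0 j hj, mul_zero, zero_mul])]
    refine Finset.sum_congr rfl fun j _ => ?_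
    rw [hwv, hwv]
  · congr 1
    exact Finset.sum_congr rfl fun i _ => by rw [hwv]

/-- the energies of disjoint sets of links add up -/
lemma sum_cuts {R : Type*} [Fintype R] (C : R → Finset E)
    (hdisj : ∀ r s, r ≠ s → Disjoint (C r) (C s)) (ψ f : Sm L E) :
    ∑ r, L.I μ (ψ * ψ * Gam (fnP L μ (cι (C r))).D f f) ≤ L.I μ (ψ * ψ * Gam (L.Dv (E := E)) f f) := by
  set F : E → ℝ := fun e => ∑ a : Fin n, L.I μ (ψ * ψ * (L.Dv (e, a) f * L.Dv (e, a) f)) with hF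
  have hF0 : ∀ e, 0 ≤ F e := by
    intro e
    refine Finset.sum_nonneg fun a _ => I_nonneg μ fun U => ?_
    rw [map_mul, map_mul, map_mul]
    exact mul_nonneg (mul_self_nonneg _) (mul_self_nonneg _)
  have h1 : ∀ r, L.I μ (ψ * ψ * Gam (fnP L μ (cι (C r))).D f f) = ∑ e ∈ C r, F e := by
    intro r
    unfold Gam
    rw [Finset.mul_sum, map_sum, Fintype.sum_prod_type, ← Finset.sum_coe_sort (C r)]
    rfl
  have h2 : L.I μ (ψ * ψ * Gam (L.Dv (E := E)) f f) = ∑ e, F e := by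
    unfold Gam
    rw [Finset.mul_sum, map_sum, Fintype.sum_prod_type]
  rw [h2, Finset.sum_congr rfl fun r _ => h1 r]
  classical
  rw [← Finset.sum_biUnion (fun r _ s _ hrs => hdisj r s hrs)]
  exact Finset.sum_le_sum_of_subset_of_nonneg (Finset.subset_univ _) fun e _ _ => hF0 e

lemma ring_a {A : Type*} [CommRing A] {p ψ : A} (u : A) (h : p * ψ = 1) : p * u * ψ = u := by
  linear_combination u * h

lemma ring_b {A : Type*} [CommRing A] (f ψ : A) : ψ * ψ * (f * f) = f * ψ * (f * ψ) := by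
  ring

lemma ring_c {A : Type*} [CommRing A] [Algebra ℝ A] {p ψ f u H : A} (h : f * ψ = u)
    (hf : f = p * u) : f * ψ * f * (H - (0 : ℝ) • ψ) = u * u * (p * H) := by
  rw [zero_smul, sub_zero, h, hf]
  ring

lemma energy_id (g : ℝ) (V ψ f : Sm L E) :
    g ^ 2 / 2 * L.I μ (Gam (L.Dv (E := E)) (f * ψ) (f * ψ)) + 1 / g ^ 2 * L.I μ (V * (f * ψ * (f * ψ))) =
      g ^ 2 / 2 * L.I μ (ψ * ψ * Gam (L.Dv (E := E)) f f) + L.I μ (f * ψ * f * (HH (L.Dv (E := E)) g V ψ - (0 : ℝ) • ψ)) := by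
  have h2 := enr_mul_mul2 (S := fnE L μ E) g V 0 ψ f
  rw [Fn.enr_eq, zero_mul, sub_zero, mul_comm (Gam _ f f)] at h2
  exact h2

lemma sum_swap {J : Type*} [Fintype J] (Q : J → J → ℝ) (v : J → ℝ) :
    ∑ i, ∑ j, v i * v j * Q i j = ∑ i, ∑ j, v i * v j * Q j i := by
  rw [Finset.sum_comm]
  exact Finset.sum_congr rfl fun i _ => Finset.sum_congr rfl fun j _ => by
    rw [mul_comm (v j)]

/-- the bound for one choice of the comparison function -/
lemma conf_one (hN : 0 < N) {R : Type*} [Fintype R] (C : R → Finset E)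
    (hdisj : ∀ r s, r ≠ s → Disjoint (C r) (C s)) (c : R → E → G) (hc : ∀ r, Cen (c r))
    (hA : ∀ r, Acc L μ (cι (C r)) (c r)) {q : ℕ} (hq : 0 < q) {u : Sm L E}
    (hu : ∀ r, PrT q (c r) u) {K m : ℝ} (hY : 0 < K - 2 * m)
    (hK : ∀ v : Fin n → ℝ, K * ∑ b, v b ^ 2 ≤ 1 / 4 * ∑ a, ∑ c, (∑ b, L.sc a c b * v b) ^ 2)
    {g : ℝ} {V : Sm L E} {ψ p : Sm L E} (hp : p * ψ = 1) (hψ : ∀ r, tw (c r) ψ = ψ)
    (hH : ∀ (x : E → G) (ξ : E × Fin n → ℝ),
        ∑ i, ∑ j, ξ i * ξ j * L.ev x (L.Dv i (p * L.Dv j ψ)) ≤ m * ∑ i, ξ i ^ 2) :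
    g ^ 2 / 2 * (Fintype.card R * ((K - 2 * m) * L.I μ (u * u))) +
      L.I μ (u * u * (p * HH (L.Dv (E := E)) g V ψ)) ≤
      g ^ 2 / 2 * L.I μ (Gam (L.Dv (E := E)) u u) + 1 / g ^ 2 * L.I μ (V * (u * u)) := by
  have hp' : ψ * p = 1 := by rw [mul_comm]; exact hp
  obtain ⟨f, hf⟩ : ∃ f, f = p * u := ⟨_, rfl⟩
  have hfu : f * ψ = u := by rw [hf]; exact ring_a u hp
  have hPf : ∀ r, PrT q (c r) f := fun r => by
    rw [hf]; exact (hu r).mul (tw_inv_fix hp' (hψ r))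
  have hH' : ∀ (U : E → G) (v : E × Fin n → ℝ),
      ∑ i, ∑ j, v i * v j * L.ev U (L.Dv j (p * L.Dv i ψ)) ≤ m * ∑ i, v i ^ 2 := by
    intro U v
    have h4 := sum_swap (fun i j => L.ev U (L.Dv i (p * L.Dv j ψ))) v
    have h3 := hH U v
    rw [h4] at h3
    exact h3
  have hcut : ∀ r, (K - 2 * m) * L.I μ (u * u) ≤
      L.I μ (ψ * ψ * Gam (fnP L μ (cι (C r))).D f f) := by
    intro r
    have h1 := poin_E (μ := μ) hN (ι := cι (C r)) Subtype.val_injective hp' hY hK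
      (fun U v => restr_form (C r) (fun i j => L.ev U (L.Dv j (p * L.Dv i ψ))) (hH' U) v)
      (hc r) (hψ r) (hA r) hq (hPf r)
    rw [ring_b, hfu] at h1
    exact h1
  have hsum := sum_cuts (μ := μ) C hdisj ψ f
  have h1 : Fintype.card R * ((K - 2 * m) * L.I μ (u * u)) ≤
      ∑ r, L.I μ (ψ * ψ * Gam (fnP L μ (cι (C r))).D f f) := by
    have h2 := Finset.sum_le_sum fun r (_ : r ∈ (Finset.univ : Finset R)) => hcut r
    rwa [Finset.sum_const, Finset.card_univ, nsmul_eq_mul] at h2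
  have h3 := energy_id (μ := μ) g V ψ f
  rw [hfu] at h3
  have h4 : u * f * (HH (L.Dv (E := E)) g V ψ - (0 : ℝ) • ψ) = u * u * (p * HH (L.Dv (E := E)) g V ψ) := by
    have := ring_c (H := HH (L.Dv (E := E)) g V ψ) hfu hf
    rwa [hfu] at this
  rw [h4] at h3
  rw [h3]
  have h5 := mul_le_mul_of_nonneg_left (h1.trans hsum) (show 0 ≤ g ^ 2 / 2 by positivity)
  exact add_le_add h5 le_rfl

lemma lim_arith {A B I2 Cd K Y g E0 : ℝ} (hI : 0 ≤ I2) (hC : 0 ≤ Cd) (hY : 2 * Y < K)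
    (h : ∀ ε, 0 < ε → 0 < K - 2 * (Y + ε) → ∃ X, (E0 - ε) * I2 ≤ X ∧
      g ^ 2 / 2 * (Cd * ((K - 2 * (Y + ε)) * I2)) + X ≤ A) :
    (E0 + g ^ 2 / 2 * ((K - 2 * Y) * Cd)) * I2 ≤ A := by
  refine le_of_forall_pos_le_add fun τ hτ => ?_
  set Bd : ℝ := I2 + g ^ 2 / 2 * (2 * Cd * I2) with hBd
  have hBd0 : 0 ≤ Bd := by positivity
  set ε : ℝ := min ((K - 2 * Y) / 4) (τ / (Bd + 1)) with hε
  have hε0 : 0 < ε := lt_min (by linarith) (by positivity)
  have hε1 : ε ≤ (K - 2 * Y) / 4 := min_le_left _ _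
  have hε2 : ε * Bd ≤ τ := by
    have h1 : ε ≤ τ / (Bd + 1) := min_le_right _ _
    rw [le_div_iff₀ (by positivity)] at h1
    nlinarith
  obtain ⟨X, hX, hXA⟩ := h ε hε0 (by linarith)
  have h5 : ε * I2 + g ^ 2 / 2 * (Cd * (2 * ε * I2)) ≤ τ := by
    rw [hBd] at hε2
    refine le_trans (le_of_eq ?_) hε2
    ring
  have h6 : (E0 + g ^ 2 / 2 * ((K - 2 * Y) * Cd)) * I2 =
      g ^ 2 / 2 * (Cd * ((K - 2 * (Y + ε)) * I2)) + (E0 - ε) * I2 +
        (ε * I2 + g ^ 2 / 2 * (Cd * (2 * ε * I2))) := by ring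
  linarith

/-- **The energy of a state which is twisted on disjoint cuts.** -/
theorem conf (hN : 0 < N) {R : Type*} [Fintype R] (C : R → Finset E)
    (hdisj : ∀ r s, r ≠ s → Disjoint (C r) (C s)) (c : R → E → G) (hc : ∀ r, Cen (c r))
    (hA : ∀ r, Acc L μ (cι (C r)) (c r)) {q : ℕ} (hq : 0 < q) {u : Sm L E}
    (hu : ∀ r, PrT q (c r) u) {K Y : ℝ} (hY : 2 * Y < K)
    (hK : ∀ v : Fin n → ℝ, K * ∑ b, v b ^ 2 ≤ 1 / 4 * ∑ a, ∑ c, (∑ b, L.sc a c b * v b) ^ 2)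
    {g E0 : ℝ} {V : Sm L E}
    (hnear : ∀ ε : ℝ, 0 < ε → ∃ ψ p : Sm L E, p * ψ = 1 ∧ (∀ r, tw (c r) ψ = ψ) ∧
      (∀ (x : E → G) (ξ : E × Fin n → ℝ),
        ∑ i, ∑ j, ξ i * ξ j * L.ev x (L.Dv i (p * L.Dv j ψ)) ≤ (Y + ε) * ∑ i, ξ i ^ 2) ∧
      (E0 - ε) * L.I μ (u * u) ≤ L.I μ (u * u * (p * HH (L.Dv (E := E)) g V ψ))) :
    (E0 + g ^ 2 / 2 * ((K - 2 * Y) * Fintype.card R)) * L.I μ (u * u) ≤
      g ^ 2 / 2 * L.I μ (Gam (L.Dv (E := E)) u u) + 1 / g ^ 2 * L.I μ (V * (u * u)) := by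
  refine lim_arith (B := 0) (I_sq_nonneg μ u) (Nat.cast_nonneg _) hY fun ε hε hK' => ?_
  obtain ⟨ψ, p, hp, hψ, hH, hE⟩ := hnear ε hε
  exact ⟨_, hE, conf_one hN C hdisj c hc hA hq hu hK' hK hp hψ hH⟩

end

end Pool.Agent.W58
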