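import Mathlib
import Pool.Agent.W58.Tw
import Pool.Agent.H906R3.YM.Torus
import Pool.Agent.H906R3.YM.Equi

/-!
# Parallel transporters along paths with distinct links
-/

open MeasureTheory Matrix Pool.Agent.H906R3.YM
open scoped Matrix.Norms.Frobenius ContDiff

namespace Pool.Agent.W58

set_option linter.unusedSectionVars false
set_option linter.unusedVariables false

noncomputable section

variable {G : Type*} [Group G] [TopologicalSpace G] {N n : ℕ} {L : LD G N n}
  {E : Type*} [Fintype E] [DecidableEq E]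

/-- the variable of an oriented link -/
def lnk (s : E × Bool) (U : E → G) : G := if s.2 then U s.1 else (U s.1)⁻¹

/-- the transporter along a path -/
def hol : List (E × Bool) → (E → G) → G
  | [], _ => 1
  | s :: w, U => lnk s U * hol w U

lemma hol_cons (s : E × Bool) (w : List (E × Bool)) (U : E → G) :
    hol (s :: w) U = lnk s U * hol w U := rfl

lemma SmM_lnk (s : E × Bool) : SmM L fun U : E → G => L.rho (lnk s U) := by
  unfold lnk
  by_cases h : s.2
  · simp only [h, if_true]
    exact SmM.link s.1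
  · simp only [h, Bool.false_eq_true, if_false, L.rho_inv]
    exact (SmM.link s.1).ct

lemma SmM_hol (w : List (E × Bool)) : SmM L fun U : E → G => L.rho (hol w U) := by
  induction w with
  | nil =>
    have : (fun U : E → G => L.rho (hol [] U)) = fun _ => 1 := by
      funext U
      show L.rho 1 = 1
      rw [map_one]
    rw [this]
    exact SmM.const 1
  | cons s w ih =>
    have : (fun U : E → G => L.rho (hol (s :: w) U)) =
        fun U => L.rho (lnk s U) * L.rho (hol w U) := by
      funext U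
      rw [hol_cons, map_mul]
    rw [this]
    exact (SmM_lnk s).mul ih

lemma lnk_shift_ne {s : E × Bool} {e : E} (h : s.1 ≠ e) (a : Fin n) (t : ℝ) (U : E → G) :
    lnk s (L.shift e a t U) = lnk s U := by
  unfold lnk LD.shift
  rw [Pi.mul_apply, Pi.mulSingle_eq_of_ne h, one_mul]

lemma hol_shift_ne {w : List (E × Bool)} {e : E} (h : e ∉ w.map Prod.fst) (a : Fin n) (t : ℝ)
    (U : E → G) : hol w (L.shift e a t U) = hol w U := by
  induction w with
  | nil => rfl
  | cons s w ih =>
    rw [List.map_cons, List.mem_cons, not_or] at h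
    rw [hol_cons, hol_cons, lnk_shift_ne (fun hh => h.1 hh.symm), ih h.2]

lemma lnk_deriv (s : E × Bool) (a : Fin n) (U : E → G) :
    HasDerivAt (fun t => L.rho (lnk s (L.shift s.1 a t U)))
      (if s.2 then L.X a * L.rho (U s.1) else (L.rho (U s.1))ᴴ * (L.X a)ᴴ) 0 := by
  have h1 : HasDerivAt (fun t => L.rho (L.ex a t * U s.1)) (L.X a * L.rho (U s.1)) 0 := by
    have : (fun t => L.rho (L.ex a t * U s.1)) = fun t => L.rho (L.ex a t) * L.rho (U s.1) := by
      funext t
      rw [map_mul]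
    rw [this]
    exact (L.deriv_ex a).mul_const _
  have e1 : ∀ t, L.shift s.1 a t U s.1 = L.ex a t * U s.1 := fun t => by
    unfold LD.shift
    rw [Pi.mul_apply, Pi.mulSingle_eq_same]
  unfold lnk
  by_cases h : s.2
  · simp only [h, if_true, e1]
    exact h1
  · simp only [h, Bool.false_eq_true, if_false, L.rho_inv, e1]
    have h2 := (ctL N).hasFDerivAt.comp_hasDerivAt (0 : ℝ) h1
    have h3 : (ctL N) (L.X a * L.rho (U s.1)) = (L.rho (U s.1))ᴴ * (L.X a)ᴴ := by
      rw [ctL_apply, conjTranspose_mul]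
    exact h2.congr_deriv h3

lemma tr_unit (g h : G) (Y : Mat N) :
    (trace ((L.rho g * Y * L.rho h)ᴴ * (L.rho g * Y * L.rho h))).re = (trace (Yᴴ * Y)).re := by
  have e : (L.rho g * Y * L.rho h)ᴴ * (L.rho g * Y * L.rho h) =
      (L.rho h)ᴴ * (Yᴴ * Y * L.rho h) := by
    rw [conjTranspose_mul, conjTranspose_mul]
    have h1 := L.unit' g
    calc (L.rho h)ᴴ * (Yᴴ * (L.rho g)ᴴ) * (L.rho g * Y * L.rho h) =
        (L.rho h)ᴴ * (Yᴴ * ((L.rho g)ᴴ * L.rho g) * Y * L.rho h) := by noncomm_ring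
      _ = _ := by rw [h1, mul_one]
  rw [e, trace_mul_comm, mul_assoc, L.unit, mul_one]

/-- the square of the norm of the derivatives of a transporter -/
lemma hol_deriv {w : List (E × Bool)} (hw : (w.map Prod.fst).Nodup) (j : E × Fin n)
    (U : E → G) : ∃ Y : Mat N,
      HasDerivAt (fun t => L.rho (hol w (L.shift j.1 j.2 t U))) Y 0 ∧
      (trace (Yᴴ * Y)).re = if j.1 ∈ w.map Prod.fst then 1 else 0 := by
  induction w with
  | nil =>
    exact ⟨0, hasDerivAt_const (0 : ℝ) (L.rho (1 : G)), by simp⟩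
  | cons s w ih =>
    rw [List.map_cons, List.nodup_cons] at hw
    have e0 : (fun t => L.rho (hol (s :: w) (L.shift j.1 j.2 t U))) =
        fun t => L.rho (lnk s (L.shift j.1 j.2 t U)) * L.rho (hol w (L.shift j.1 j.2 t U)) := by
      funext t
      rw [hol_cons, map_mul]
    rw [e0]
    by_cases hj : s.1 = j.1
    · have h1 : ∀ t, hol w (L.shift j.1 j.2 t U) = hol w U := fun t =>
        hol_shift_ne (by rw [← hj]; exact hw.1) _ _ _
      have h2 := lnk_deriv (L := L) s j.2 U
      rw [hj] at h2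
      simp only [h1]
      refine ⟨_, h2.mul_const _, ?_⟩
      have hmem : j.1 ∈ List.map Prod.fst (s :: w) := by
        rw [List.map_cons, hj]; exact List.mem_cons_self
      rw [if_pos hmem]
      have hX : (trace ((L.X j.2)ᴴ * L.X j.2)).re = 1 := by
        rw [L.orth, if_pos rfl]
      by_cases hs : s.2
      · rw [if_pos hs]
        have h3 := tr_unit (L := L) 1 (U j.1 * hol w U) (L.X j.2)
        rw [map_one, one_mul, map_mul] at h3
        rw [mul_assoc (L.X j.2), h3, hX]
      · rw [if_neg hs]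
        have h3 := tr_unit (L := L) (U j.1)⁻¹ (hol w U) (L.X j.2)ᴴ
        rw [L.rho_inv] at h3
        rw [h3, conjTranspose_conjTranspose, trace_mul_comm, hX]
    · obtain ⟨Y, hY, hYt⟩ := ih hw.2
      have h1 : ∀ t, lnk s (L.shift j.1 j.2 t U) = lnk s U := fun t => lnk_shift_ne hj _ _ _
      simp only [h1]
      refine ⟨_, hY.const_mul _, ?_⟩
      have h3 := tr_unit (L := L) (lnk s U) 1 Y
      rw [map_one, mul_one] at h3
      rw [h3, hYt]
      have h4 : j.1 ∈ (s :: w).map Prod.fst ↔ j.1 ∈ w.map Prod.fst := by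
        rw [List.map_cons, List.mem_cons]
        constructor
        · rintro (h5 | h5)
          · exact absurd h5.symm hj
          · exact h5
        · exact Or.inr
      simp only [h4]

/-! ### the real coordinates of the transporter -/

/-- the real coordinates of the matrix of the transporter -/
def hc (L : LD G N n) (w : List (E × Bool)) (c : Fin N × Fin N × Bool) : Sm L E :=
  lin (co c) _ (SmM_hol (L := L) w)

lemma hc_apply (w : List (E × Bool)) (c : Fin N × Fin N × Bool) (U : E → G) :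
    (hc L w c).1 U = co c (L.rho (hol w U)) := rfl

lemma sum_hc_sq (w : List (E × Bool)) : ∑ c, hc L w c * hc L w c = (N : ℝ) • (1 : Sm L E) := by
  refine ev_ext fun U => ?_
  rw [map_sum, map_smul, map_one, smul_eq_mul, mul_one]
  have h1 : ∀ c, L.ev U (hc L w c * hc L w c) = co c (L.rho (hol w U)) ^ 2 := fun c => by
    rw [map_mul, sq]; rfl
  rw [Finset.sum_congr rfl fun c _ => h1 c, sum_co_sq, L.unit', trace_one]
  simp

lemma sum_hc_Dv {w : List (E × Bool)} (hw : (w.map Prod.fst).Nodup) (j : E × Fin n) :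
    ∑ c, L.Dv j (hc L w c) * L.Dv j (hc L w c) =
      (if j.1 ∈ w.map Prod.fst then (1 : ℝ) else 0) • (1 : Sm L E) := by
  refine ev_ext fun U => ?_
  rw [map_sum, map_smul, map_one, smul_eq_mul, mul_one]
  obtain ⟨Y, hY, hYt⟩ := hol_deriv (L := L) hw j U
  have h1 : ∀ c, L.ev U (L.Dv j (hc L w c) * L.Dv j (hc L w c)) = co c Y ^ 2 := fun c => by
    rw [map_mul, sq]
    have : (L.Dv j (hc L w c)).1 U = co c Y := Dv_lin _ _ _ j U hY
    rw [← this]
    rfl
  rw [Finset.sum_congr rfl fun c _ => h1 c, sum_co_sq, hYt]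

lemma sum_Gam_hc {w : List (E × Bool)} (hw : (w.map Prod.fst).Nodup) :
    ∑ c, Gam (L.Dv (E := E)) (hc L w c) (hc L w c) = ((n : ℝ) * w.length) • (1 : Sm L E) := by
  unfold Gam
  rw [Finset.sum_comm, Finset.sum_congr rfl fun j _ => sum_hc_Dv hw j, ← Finset.sum_smul]
  congr 1
  have h0 : ∀ e : E, ∑ a : Fin n, (if (e, a).1 ∈ w.map Prod.fst then (1 : ℝ) else 0) =
      n * (if e ∈ w.map Prod.fst then (1 : ℝ) else 0) := fun e => by
    show ∑ _a : Fin n, (if e ∈ w.map Prod.fst then (1 : ℝ) else 0) = _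
    rw [Finset.sum_const, Finset.card_univ, Fintype.card_fin, nsmul_eq_mul]
  rw [Fintype.sum_prod_type, Finset.sum_congr rfl fun e _ => h0 e, ← Finset.mul_sum]
  congr 1
  rw [Finset.sum_ite, Finset.sum_const_zero, add_zero, Finset.sum_const, nsmul_eq_mul, mul_one]
  have h1 : (Finset.univ.filter fun e => e ∈ w.map Prod.fst) = (w.map Prod.fst).toFinset := by
    ext e
    simp
  rw [h1, List.toFinset_card_of_nodup hw, List.length_map]

lemma Dsq {A : Type*} [CommRing A] [Algebra ℝ A] (D : Derivation ℝ A A) (u : A) :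
    D (u * u) = (2 : ℝ) • (u * D u) := by
  rw [Derivation.leibniz, smul_eq_mul, two_smul]

lemma ring_d {A : Type*} [CommRing A] (V h Ω : A) : V * ((h * Ω) * (h * Ω)) =
    (h * h) * (V * (Ω * Ω)) := by
  ring

lemma half_sq {A K : Type*} [CommRing A] [Algebra ℝ A] [Fintype K] (D : Derivation ℝ A A)
    (u : K → A) (h : D (∑ c, u c * u c) = 0) : ∑ c, u c * D (u c) = 0 := by
  rw [map_sum, Finset.sum_congr rfl fun c _ => Dsq D (u c), ← Finset.smul_sum] at h
  have h3 := congrArg (fun x => (1 / 2 : ℝ) • x) h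
  simpa [smul_smul] using h3

lemma Gam_mul_self {A J : Type*} [CommRing A] [Algebra ℝ A] [Fintype J]
    (D : J → Derivation ℝ A A) (u Ω : A) : Gam D (u * Ω) (u * Ω) =
      (u * u) * Gam D Ω Ω + Gam D u u * (Ω * Ω) + ∑ j, (u * D j u) * (2 * Ω * D j Ω) := by
  unfold Gam
  rw [Finset.mul_sum, Finset.sum_mul, ← Finset.sum_add_distrib, ← Finset.sum_add_distrib]
  refine Finset.sum_congr rfl fun j _ => ?_
  rw [Derivation.leibniz, smul_eq_mul, smul_eq_mul]
  ring

lemma sum_Gam_abs {A K J : Type*} [CommRing A] [Algebra ℝ A] [Fintype K] [Fintype J]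
    (D : J → Derivation ℝ A A) (u : K → A) {a b : ℝ} (h1 : ∑ c, u c * u c = a • (1 : A))
    (h2 : ∑ c, Gam D (u c) (u c) = b • (1 : A)) (Ω : A) :
    ∑ c, Gam D (u c * Ω) (u c * Ω) = a • Gam D Ω Ω + b • (Ω * Ω) := by
  have h0 : ∀ j, ∑ c, u c * D j (u c) = 0 := by
    intro j
    refine half_sq (D j) u ?_
    rw [h1, Derivation.map_smul, Derivation.map_one_eq_zero, smul_zero]
  rw [Finset.sum_congr rfl fun c _ => Gam_mul_self D (u c) Ω, Finset.sum_add_distrib,
    Finset.sum_add_distrib, ← Finset.sum_mul, ← Finset.sum_mul, h1, h2, Finset.sum_comm]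
  simp only [← Finset.sum_mul, h0, zero_mul, Finset.sum_const_zero, add_zero, smul_mul_assoc,
    one_mul]

/-- the sum of the squares of the gradients of `u_c Ω` -/
lemma sum_Gam_mul {w : List (E × Bool)} (hw : (w.map Prod.fst).Nodup) (Ω : Sm L E) :
    ∑ c, Gam (L.Dv (E := E)) (hc L w c * Ω) (hc L w c * Ω) =
      (N : ℝ) • Gam (L.Dv (E := E)) Ω Ω + ((n : ℝ) * w.length) • (Ω * Ω) :=
  sum_Gam_abs L.Dv (hc L w) (sum_hc_sq w) (sum_Gam_hc hw) Ω

section energy

variable [IsTopologicalGroup G] [CompactSpace G] [SecondCountableTopology G]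
  [MeasurableSpace G] [BorelSpace G] (μ : Measure G) [IsProbabilityMeasure μ]
  [μ.IsMulLeftInvariant] [μ.IsOpenPosMeasure]

/-- **The energy of a string**: parallel transporter times `Ω`. -/
theorem string_energy {w : List (E × Bool)} (hw : (w.map Prod.fst).Nodup) (g : ℝ)
    (V Ω : Sm L E) :
    ∑ c, (g ^ 2 / 2 * L.I μ (Gam (L.Dv (E := E)) (hc L w c * Ω) (hc L w c * Ω)) +
      1 / g ^ 2 * L.I μ (V * ((hc L w c * Ω) * (hc L w c * Ω)))) =
    N * (g ^ 2 / 2 * L.I μ (Gam (L.Dv (E := E)) Ω Ω) + 1 / g ^ 2 * L.I μ (V * (Ω * Ω))) +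
      g ^ 2 / 2 * (n * w.length) * L.I μ (Ω * Ω) := by
  rw [Finset.sum_add_distrib, ← Finset.mul_sum, ← Finset.mul_sum, ← map_sum, ← map_sum,
    sum_Gam_mul hw]
  have h1 : ∑ c, V * ((hc L w c * Ω) * (hc L w c * Ω)) = (N : ℝ) • (V * (Ω * Ω)) := by
    have h2 : ∀ c, V * ((hc L w c * Ω) * (hc L w c * Ω)) =
        (hc L w c * hc L w c) * (V * (Ω * Ω)) := fun c => ring_d _ _ _
    rw [Finset.sum_congr rfl fun c _ => h2 c, ← Finset.sum_mul, sum_hc_sq, smul_mul_assoc,
      one_mul]
  rw [h1, map_add, map_smul, map_smul, map_smul, smul_eq_mul, smul_eq_mul, smul_eq_mul]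
  ring

/-- the norm of a string -/
theorem string_norm (w : List (E × Bool)) (Ω : Sm L E) :
    ∑ c, L.I μ ((hc L w c * Ω) * (hc L w c * Ω)) = N * L.I μ (Ω * Ω) := by
  rw [← map_sum]
  have h2 : ∀ c, (hc L w c * Ω) * (hc L w c * Ω) = (hc L w c * hc L w c) * (1 * (Ω * Ω)) :=
    fun c => by rw [one_mul, mul_mul_mul_comm]
  rw [Finset.sum_congr rfl fun c _ => h2 c, ← Finset.sum_mul, sum_hc_sq, smul_mul_assoc,
    one_mul, one_mul, map_smul, smul_eq_mul]

end energy

/-! ### geodesics of the torus -/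

section torus

variable {D l : ℕ} [NeZero l]

/-- the distance of the torus -/
def dT (x y : Fin D → ZMod l) : ℕ := ∑ i, (y i - x i).valMinAbs.natAbs

/-- `w` is a path from `x` to `y` -/
def IsPath : List (Ed D l × Bool) → (Fin D → ZMod l) → (Fin D → ZMod l) → Prop
  | [], x, y => x = y
  | s :: w, x, y => if s.2 then s.1.1 = x ∧ IsPath w (x + eT s.1.2) y
      else s.1.1 + eT s.1.2 = x ∧ IsPath w s.1.1 y

lemma hol_gt {w : List (Ed D l × Bool)} {x y : Fin D → ZMod l} (hw : IsPath w x y)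
    (γ : (Fin D → ZMod l) → G) (U : Ed D l → G) :
    hol w (gt γ U) = γ x * hol w U * (γ y)⁻¹ := by
  induction w generalizing x with
  | nil =>
    have : x = y := hw
    subst this
    show (1 : G) = γ x * 1 * (γ x)⁻¹
    rw [mul_one, mul_inv_cancel]
  | cons s w ih =>
    rw [hol_cons, hol_cons]
    unfold IsPath at hw
    by_cases hs : s.2
    · rw [if_pos hs] at hw
      rw [ih hw.2]
      unfold lnk gt
      rw [if_pos hs, if_pos hs, hw.1]
      group
    · rw [if_neg hs] at hw
      rw [ih hw.2]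
      unfold lnk gt
      rw [if_neg hs, if_neg hs, hw.1]
      group

lemma vma_dec {v : ZMod l} (hv : v ≠ 0) :
    (0 < v.valMinAbs ∧ (v - 1).valMinAbs.natAbs + 1 = v.valMinAbs.natAbs) ∨
      (v.valMinAbs < 0 ∧ (v + 1).valMinAbs.natAbs + 1 = v.valMinAbs.natAbs) := by
  have h0 : v.valMinAbs ≠ 0 := fun h => hv ((ZMod.valMinAbs_eq_zero v).1 h)
  have hm := ZMod.valMinAbs_mem_Ioc v
  rw [Set.mem_Ioc] at hm
  rcases lt_or_gt_of_ne h0 with h1 | h1
  · right
    refine ⟨h1, ?_⟩
    have h2 : (v + 1).valMinAbs = v.valMinAbs + 1 := by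
      rw [ZMod.valMinAbs_spec]
      refine ⟨by simp, ?_⟩
      rw [Set.mem_Ioc]
      constructor <;> linarith [hm.1, hm.2]
    rw [h2]
    omega
  · left
    refine ⟨h1, ?_⟩
    have h2 : (v - 1).valMinAbs = v.valMinAbs - 1 := by
      rw [ZMod.valMinAbs_spec]
      refine ⟨by simp, ?_⟩
      rw [Set.mem_Ioc]
      have hl : (0 : ℤ) < l := by exact_mod_cast Nat.pos_of_ne_zero (NeZero.ne l)
      constructor <;> linarith [hm.1, hm.2]
    rw [h2]
    omega

/-- existence of a geodesic with distinct links -/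
lemma exists_geod (y : Fin D → ZMod l) : ∀ (d : ℕ) (x : Fin D → ZMod l), dT x y = d →
    ∃ w : List (Ed D l × Bool), IsPath w x y ∧ w.length = d ∧ (w.map Prod.fst).Nodup ∧
      ∀ e ∈ w.map Prod.fst, dT e.1 y ≤ d ∧ dT (e.1 + eT e.2) y ≤ d := by
  intro d
  induction d with
  | zero =>
    intro x hx
    refine ⟨[], ?_, rfl, List.nodup_nil, by simp⟩
    show x = y
    unfold dT at hx
    rw [Finset.sum_eq_zero_iff] at hx
    funext i
    have h1 := hx i (Finset.mem_univ i)
    rw [Int.natAbs_eq_zero, ZMod.valMinAbs_eq_zero, sub_eq_zero] at h1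
    exact h1.symm
  | succ d ih =>
    intro x hx
    obtain ⟨i, hi⟩ : ∃ i, y i - x i ≠ 0 := by
      by_contra hc
      push Not at hc
      unfold dT at hx
      simp only [hc, ZMod.valMinAbs_zero, Int.natAbs_zero, Finset.sum_const_zero] at hx
      omega
    -- the distance after changing the coordinate `i`
    have hstep : ∀ x' : Fin D → ZMod l, (∀ k, k ≠ i → x' k = x k) →
        (y i - x' i).valMinAbs.natAbs + 1 = (y i - x i).valMinAbs.natAbs → dT x' y = d := by
      intro x' hx' h1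
      unfold dT at hx ⊢
      rw [← Finset.add_sum_erase _ _ (Finset.mem_univ i)] at hx ⊢
      have h2 : ∑ k ∈ Finset.univ.erase i, (y k - x' k).valMinAbs.natAbs =
          ∑ k ∈ Finset.univ.erase i, (y k - x k).valMinAbs.natAbs :=
        Finset.sum_congr rfl fun k hk => by rw [hx' k (Finset.ne_of_mem_erase hk)]
      omega
    rcases vma_dec hi with ⟨-, h1⟩ | ⟨-, h1⟩
    · have hx' : dT (x + eT i) y = d := by
        refine hstep _ (fun k hk => by simp [eT, hk]) ?_
        have : y i - (x + eT i : Fin D → ZMod l) i = y i - x i - 1 := by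
          rw [Pi.add_apply]
          unfold eT
          rw [Pi.single_eq_same]
          ring
        rw [this]
        exact h1
      obtain ⟨w, hw1, hw2, hw3, hw4⟩ := ih (x + eT i) hx'
      refine ⟨((x, i), true) :: w, ?_, by rw [List.length_cons, hw2], ?_, ?_⟩
      · unfold IsPath
        rw [if_pos rfl]
        exact ⟨rfl, hw1⟩
      · rw [List.map_cons, List.nodup_cons]
        refine ⟨fun hmem => ?_, hw3⟩
        have := (hw4 _ hmem).1
        dsimp only at this
        omega
      · intro e he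
        rw [List.map_cons, List.mem_cons] at he
        rcases he with rfl | he
        · exact ⟨hx.le, by dsimp only; omega⟩
        · have := hw4 e he
          omega
    · set x' : Fin D → ZMod l := x - eT i with hx'd
      have hxx : x' + eT i = x := by rw [hx'd, sub_add_cancel]
      have hx' : dT x' y = d := by
        refine hstep _ (fun k hk => by simp [hx'd, eT, hk]) ?_
        have : y i - x' i = y i - x i + 1 := by
          rw [hx'd, Pi.sub_apply]
          unfold eT
          rw [Pi.single_eq_same]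
          ring
        rw [this]
        exact h1
      obtain ⟨w, hw1, hw2, hw3, hw4⟩ := ih x' hx'
      refine ⟨((x', i), false) :: w, ?_, by rw [List.length_cons, hw2], ?_, ?_⟩
      · unfold IsPath
        rw [if_neg (by simp)]
        exact ⟨hxx, hw1⟩
      · rw [List.map_cons, List.nodup_cons]
        refine ⟨fun hmem => ?_, hw3⟩
        have := (hw4 _ hmem).2
        dsimp only at this
        rw [hxx] at this
        omega
      · intro e he
        rw [List.map_cons, List.mem_cons] at he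
        rcases he with rfl | he
        · dsimp only
          rw [hxx]
          omega
        · have := hw4 e he
          omega

/-- **A state with a static quark at `x` and an antiquark at `y`**: a near ground state times the
transporter along a geodesic. -/
theorem string_state [IsTopologicalGroup G] [CompactSpace G] [SecondCountableTopology G]
    [MeasurableSpace G] [BorelSpace G] (μ : Measure G) [IsProbabilityMeasure μ]
    [μ.IsMulLeftInvariant] [μ.IsOpenPosMeasure] (hN : 0 < N) (x y : Fin D → ZMod l) (g : ℝ)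
    (V : Sm L (Ed D l)) {Ω : Sm L (Ed D l)} (hΩ : Inv Ω) (hn : L.I μ (Ω * Ω) = 1) :
    ∃ (Ψ : (Ed D l → G) → Mat N) (hΨ : SmM L Ψ),
      (∀ γ U, Ψ (gt γ U) = L.rho (γ x) * Ψ U * (L.rho (γ y))ᴴ) ∧
      ∑ c, L.I μ (lin (co c) Ψ hΨ * lin (co c) Ψ hΨ) = 1 ∧
      ∑ c, (g ^ 2 / 2 * L.I μ (Gam (L.Dv (E := Ed D l)) (lin (co c) Ψ hΨ) (lin (co c) Ψ hΨ)) +
        1 / g ^ 2 * L.I μ (V * (lin (co c) Ψ hΨ * lin (co c) Ψ hΨ))) =
      g ^ 2 / 2 * L.I μ (Gam (L.Dv (E := Ed D l)) Ω Ω) + 1 / g ^ 2 * L.I μ (V * (Ω * Ω)) +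
        g ^ 2 / 2 * (n / N * dT x y) := by
  obtain ⟨w, hw1, hw2, hw3, -⟩ := exists_geod y (dT x y) x rfl
  have hN' : (0 : ℝ) < N := by exact_mod_cast hN
  have hs : (0 : ℝ) < Real.sqrt N := Real.sqrt_pos.2 hN'
  have hss : (Real.sqrt N)⁻¹ ^ 2 * N = 1 := by
    rw [inv_pow, Real.sq_sqrt hN'.le, inv_mul_cancel₀ hN'.ne']
  set r : ℝ := (Real.sqrt N)⁻¹ with hr
  have hsm : SmM L fun U : Ed D l → G => (r * Ω.1 U) • L.rho (hol w U) := by
    obtain ⟨f, hf, h⟩ := Ω.2
    obtain ⟨F, hF, h'⟩ := SmM_hol (L := L) w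
    refine ⟨fun M => (r * f M) • F M, (contDiff_const.mul hf).smul hF, fun U => ?_⟩
    show (r * Ω.1 U) • L.rho (hol w U) = (r * f (L.mat U)) • F (L.mat U)
    rw [← h', h]
  refine ⟨_, hsm, ?_, ?_, ?_⟩
  · intro γ U
    have h1 : Ω.1 (gt γ U) = Ω.1 U := congrArg (fun v : Sm L (Ed D l) => v.1 U) (hΩ γ)
    rw [h1, hol_gt hw1, map_mul, map_mul, L.rho_inv, mul_smul_comm, smul_mul_assoc]
  · have h1 : ∀ c, lin (co c) _ hsm = r • (hc L w c * Ω) := fun c => ev_ext fun U => by
      rw [map_smul, map_mul, smul_eq_mul]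
      show co c ((r * Ω.1 U) • L.rho (hol w U)) = r * (co c (L.rho (hol w U)) * Ω.1 U)
      rw [map_smul, smul_eq_mul]
      ring
    have h2 : ∀ c, L.I μ (lin (co c) _ hsm * lin (co c) _ hsm) =
        r ^ 2 * L.I μ ((hc L w c * Ω) * (hc L w c * Ω)) := fun c => by
      rw [h1, smul_mul_smul_comm, map_smul, smul_eq_mul, sq]
    rw [Finset.sum_congr rfl fun c _ => h2 c, ← Finset.mul_sum, string_norm, hn, mul_one, hss]
  · have h1 : ∀ c, lin (co c) _ hsm = r • (hc L w c * Ω) := fun c => ev_ext fun U => by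
      rw [map_smul, map_mul, smul_eq_mul]
      show co c ((r * Ω.1 U) • L.rho (hol w U)) = r * (co c (L.rho (hol w U)) * Ω.1 U)
      rw [map_smul, smul_eq_mul]
      ring
    have h2 : ∀ c, (g ^ 2 / 2 * L.I μ (Gam (L.Dv (E := Ed D l)) (lin (co c) _ hsm)
        (lin (co c) _ hsm)) + 1 / g ^ 2 * L.I μ (V * (lin (co c) _ hsm * lin (co c) _ hsm))) =
        r ^ 2 * (g ^ 2 / 2 * L.I μ (Gam (L.Dv (E := Ed D l)) (hc L w c * Ω) (hc L w c * Ω)) +
          1 / g ^ 2 * L.I μ (V * ((hc L w c * Ω) * (hc L w c * Ω)))) := fun c => by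
      rw [h1, Gam_smul, Gam_comm, Gam_smul, smul_mul_smul_comm, mul_smul_comm, map_smul,
        map_smul, map_smul, smul_eq_mul, smul_eq_mul, smul_eq_mul]
      ring
    rw [Finset.sum_congr rfl fun c _ => h2 c, ← Finset.mul_sum, string_energy μ hw3, hn, hw2]
    have h3 : (n : ℝ) / N = r ^ 2 * n := by
      rw [div_eq_iff hN'.ne']
      calc (n : ℝ) = (r ^ 2 * N) * n := by rw [hss, one_mul]
        _ = r ^ 2 * n * N := by ring
    rw [h3]
    linear_combination (g ^ 2 / 2 * L.I μ (Gam (L.Dv (E := Ed D l)) Ω Ω) +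
      1 / g ^ 2 * L.I μ (V * (Ω * Ω))) * hss

end torus

end

end Pool.Agent.W58
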